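import Pool.Agent.Work.MP_f90287_co.Core2

/-!
# The weighted inequality in the open half plane
-/

set_option autoImplicit false

namespace Pool.Agent.Work.MP_f90287_co

open Finset

section induction

variable {V : Type} [DecidableEq V] {ρ θ : V → ℝ} {κ : V → V → ℝ} {k0 : ℝ}

theorem Phi_nonneg (hρ : ∀ i, 0 < ρ i) (hθ : ∀ i, -(Real.pi / 2) < θ i ∧ θ i < Real.pi / 2)
    (hκs : ∀ i j, κ i j = κ j i) (hκd : ∀ i, κ i i = k0)
    (hκo : ∀ i j, θ i + Real.pi / 2 < θ j → κ i j = k0)
    (hMS : ∀ (S : Finset V) (h : V → ℝ), (∀ i ∈ S, 0 ≤ h i) →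
      0 ≤ ∑ i ∈ S, ∑ j ∈ S, κ i j * (h i * h j)) :
    ∀ (n : ℕ) (L I R : Finset V) (t : ℝ), Valid θ L I R t → I.card + 2 * R.card = n →
      0 ≤ Phi ρ θ κ k0 L I R t := by
  intro n
  induction n with
  | zero =>
    intro L I R t h hn
    have := Finset.card_pos.2 h.Rne
    omega
  | succ n ih =>
    intro L I R t h hn
    obtain ⟨r0, hr0, hr0min⟩ := R.exists_min_image θ h.Rne
    obtain ⟨l1, hl1⟩ := h.Lne
    have hRpos := Finset.card_pos.2 h.Rne
    by_cases hcase : ∃ i ∈ I, θ i + Real.pi / 2 < θ r0
    · -- a vertex leaves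
      obtain ⟨i1, hi1, hi1'⟩ := hcase
      obtain ⟨l0, hl0, hl0min⟩ := I.exists_min_image θ ⟨i1, hi1⟩
      have hlt : θ l0 + Real.pi / 2 < θ r0 := by linarith [hl0min i1 hi1]
      have hlt' : ∀ r ∈ R, θ l0 + Real.pi / 2 < θ r := fun r hr => hlt.trans_le (hr0min r hr)
      have htt : t ≤ θ l0 := (h.hI l0 hl0).1
      have hsm := Phi_smooth (k0 := k0) hρ hθ hMS h htt (fun i hi => hl0min i hi)
        (fun r hr => (hlt' r hr).le)
      have hl0L : l0 ∉ L := fun hh => Finset.disjoint_left.1 h.hLI hh hl0
      have hl0R : l0 ∉ R := fun hh => Finset.disjoint_left.1 h.hIR hl0 hh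
      have hpos : 0 < S1 ρ θ L (θ l0) + S1 ρ θ R (θ l0) := by
        have a : 0 < S1 ρ θ L (θ l0) := Finset.sum_pos (fun l hl => pow_pos
          (ccL hρ ((h.hL l hl).trans htt)
            (by linarith [(hθ l).1, (hθ r0).2, hlt])) 2) h.Lne
        have b : 0 ≤ S1 ρ θ R (θ l0) := Finset.sum_nonneg fun _ _ => sq_nonneg _
        linarith
      have hss : ss ρ θ l0 (θ l0) = 0 := by simp [ss]
      have hlv := Phi_leave (ρ := ρ) (θ := θ) hκs hκd hMS hl0 hl0L hl0R h.hIR
        (fun r hr => hκo l0 r (hlt' r hr)) hss hpos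
      have hval : Valid θ (insert l0 L) (I.erase l0) R (θ l0) :=
        { hL := fun l hl => by
            rcases Finset.mem_insert.1 hl with e | hl
            · rw [e]
            · exact (h.hL l hl).trans htt
          hI := fun i hi => by
            have hi' := Finset.mem_of_mem_erase hi
            exact ⟨hl0min i hi', by linarith [(h.hI i hi').2]⟩
          hR := fun r hr => (hlt' r hr).le
          hLR := fun l hl r hr => by
            rcases Finset.mem_insert.1 hl with e | hl
            · rw [e]; exact hlt' r hr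
            · exact h.hLR l hl r hr
          hLI := by
            rw [Finset.disjoint_left]
            intro x hx hx'
            rcases Finset.mem_insert.1 hx with e | hx
            · exact Finset.ne_of_mem_erase hx' e
            · exact Finset.disjoint_left.1 h.hLI hx (Finset.mem_of_mem_erase hx')
          hIR := h.hIR.mono_left (Finset.erase_subset _ _)
          Lne := ⟨l0, Finset.mem_insert_self _ _⟩
          Rne := h.Rne }
      have hcard : (I.erase l0).card + 2 * R.card = n := by
        have := Finset.card_erase_of_mem hl0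
        have := Finset.card_pos.2 ⟨l0, hl0⟩
        omega
      exact (ih _ _ _ _ hval hcard).trans (hlv.trans hsm)
    · -- a vertex enters
      push Not at hcase
      set t' := θ r0 - Real.pi / 2 with ht'
      have htt : t ≤ t' := by have := h.hR r0 hr0; linarith
      have hI' : ∀ i ∈ I, t' ≤ θ i := fun i hi => by have := hcase i hi; linarith
      have hR' : ∀ r ∈ R, t' + Real.pi / 2 ≤ θ r := fun r hr => by
        have := hr0min r hr; linarith
      have hsm := Phi_smooth (k0 := k0) hρ hθ hMS h htt hI' hR'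
      have hLlt : ∀ l ∈ L, θ l < t' := fun l hl => by have := h.hLR l hl r0 hr0; linarith
      have hLub : ∀ l ∈ L, t' < θ l + Real.pi / 2 := fun l hl => by
        linarith [(hθ l).1, (hθ r0).2]
      have hr0I : r0 ∉ I := fun hh => Finset.disjoint_left.1 h.hIR hh hr0
      have hr0L : r0 ∉ L := fun hh => by
        have := h.hLR r0 hh r0 hr0
        linarith [Real.pi_pos]
      have hcc : cc ρ θ r0 t' = 0 := by
        unfold cc
        rw [show θ r0 - t' = Real.pi / 2 by rw [ht']; ring, Real.cos_pi_div_two, mul_zero]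
      have p1 : 0 < S1 ρ θ L t' := Finset.sum_pos (fun l hl => pow_pos
        (ccL hρ (hLlt l hl).le (hLub l hl)) 2) h.Lne
      have p2 : 0 < S2 ρ θ L t' := by
        unfold S2
        rw [← Finset.sum_neg_distrib]
        refine Finset.sum_pos (fun l hl => ?_) h.Lne
        have a := ccL hρ (hLlt l hl).le (hLub l hl)
        have b := ssL' hρ (hLlt l hl) (hLub l hl)
        nlinarith
      have p3 : 0 < S3 ρ θ L t' := Finset.sum_pos (fun l hl => by
        have b := (ssL' hρ (hLlt l hl) (hLub l hl)).ne
        positivity) h.Lne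
      have hen := Phi_enter (ρ := ρ) (θ := θ) hκs hκd hMS hr0 hr0I hcc p3
      rcases (R.erase r0).eq_empty_or_nonempty with hemp | hne
      · rw [hemp, Phi_end p1 p2 p3] at hen
        exact hen.trans hsm
      · have hval : Valid θ L (insert r0 I) (R.erase r0) t' :=
          { hL := fun l hl => (hLlt l hl).le
            hI := fun i hi => by
              rcases Finset.mem_insert.1 hi with e | hi
              · rw [e]; constructor <;> linarith [Real.pi_pos]
              · exact ⟨hI' i hi, by linarith [(h.hI i hi).2]⟩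
            hR := fun r hr => hR' r (Finset.mem_of_mem_erase hr)
            hLR := fun l hl r hr => h.hLR l hl r (Finset.mem_of_mem_erase hr)
            hLI := by
              rw [Finset.disjoint_right]
              intro x hx hx'
              rcases Finset.mem_insert.1 hx with e | hx
              · exact hr0L (e ▸ hx')
              · exact Finset.disjoint_left.1 h.hLI hx' hx
            hIR := by
              rw [Finset.disjoint_left]
              intro x hx hx'
              rcases Finset.mem_insert.1 hx with e | hx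
              · exact Finset.ne_of_mem_erase hx' e
              · exact Finset.disjoint_left.1 h.hIR hx (Finset.mem_of_mem_erase hx')
            Lne := h.Lne
            Rne := hne }
        have hcard : (insert r0 I).card + 2 * (R.erase r0).card = n := by
          have := Finset.card_erase_of_mem hr0
          have := Finset.card_insert_of_notMem hr0I
          omega
        exact (ih _ _ _ _ hval hcard).trans (hen.trans hsm)

theorem core_ineq [Fintype V] (hρ : ∀ i, 0 < ρ i)
    (hθ : ∀ i, -(Real.pi / 2) < θ i ∧ θ i < Real.pi / 2)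
    (hκs : ∀ i j, κ i j = κ j i) (hκd : ∀ i, κ i i = k0)
    (hκo : ∀ i j, θ i + Real.pi / 2 < θ j → κ i j = k0)
    (hMS : ∀ (S : Finset V) (h : V → ℝ), (∀ i ∈ S, 0 ≤ h i) →
      0 ≤ ∑ i ∈ S, ∑ j ∈ S, κ i j * (h i * h j)) :
    0 ≤ ∑ i, ∑ j, κ i j * WW ρ θ i j := by
  rcases (Finset.univ : Finset V).eq_empty_or_nonempty with hemp | hne
  · rw [hemp]; simp
  obtain ⟨l0, -, hl0min⟩ := (Finset.univ : Finset V).exists_min_image θ hne
  have hmin : ∀ i, θ l0 ≤ θ i := fun i => hl0min i (Finset.mem_univ i)
  set R := Finset.univ.filter fun i => θ l0 + Real.pi / 2 < θ i with hR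
  set I := Finset.univ.filter fun i => ¬ (θ l0 + Real.pi / 2 < θ i) with hI
  have hun : I ∪ R = Finset.univ := by
    ext i
    simp only [hI, hR, Finset.mem_union, Finset.mem_filter, Finset.mem_univ, true_and, iff_true]
    exact (em _).symm
  have memR : ∀ {i}, i ∈ R → θ l0 + Real.pi / 2 < θ i := fun hi => (Finset.mem_filter.1 hi).2
  have memI : ∀ {i}, i ∈ I → θ i ≤ θ l0 + Real.pi / 2 := fun hi =>
    not_lt.1 (Finset.mem_filter.1 hi).2
  have hdisj : Disjoint I R := by
    rw [Finset.disjoint_left]
    intro x hx hx'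
    exact absurd (memR hx') (not_lt.2 (memI hx))
  have hl0I : l0 ∈ I := by
    simp only [hI, Finset.mem_filter, Finset.mem_univ, true_and]
    linarith [Real.pi_pos]
  have hl0R : l0 ∉ R := fun hh => Finset.disjoint_left.1 hdisj hl0I hh
  rcases R.eq_empty_or_nonempty with hRe | hRne
  · -- all vectors in a quadrant
    have hIu : I = Finset.univ := by rw [← hun, hRe, Finset.union_empty]
    have hc : ∀ i, 0 ≤ cc ρ θ i (θ l0) := fun i =>
      ccI hρ (hmin i) (memI (by rw [hIu]; exact Finset.mem_univ i))
    have hs : ∀ i, 0 ≤ ss ρ θ i (θ l0) := fun i =>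
      ssI hρ (hmin i) (memI (by rw [hIu]; exact Finset.mem_univ i))
    have e : ∑ i, ∑ j, κ i j * WW ρ θ i j =
        (∑ i, ∑ j, κ i j * (cc ρ θ i (θ l0) ^ 2 * cc ρ θ j (θ l0) ^ 2)) +
        2 * (∑ i, ∑ j, κ i j * ((cc ρ θ i (θ l0) * ss ρ θ i (θ l0)) *
          (cc ρ θ j (θ l0) * ss ρ θ j (θ l0)))) +
        (∑ i, ∑ j, κ i j * (ss ρ θ i (θ l0) ^ 2 * ss ρ θ j (θ l0) ^ 2)) := by
      rw [Finset.mul_sum, ← Finset.sum_add_distrib, ← Finset.sum_add_distrib]
      refine Finset.sum_congr rfl fun i _ => ?_
      rw [Finset.mul_sum, ← Finset.sum_add_distrib, ← Finset.sum_add_distrib]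
      refine Finset.sum_congr rfl fun j _ => ?_
      rw [WW_eq ρ θ i j (θ l0)]; ring
    rw [e]
    have a1 := hMS Finset.univ (fun i => cc ρ θ i (θ l0) ^ 2) fun i _ => by positivity
    have a2 := hMS Finset.univ (fun i => cc ρ θ i (θ l0) * ss ρ θ i (θ l0)) fun i _ =>
      mul_nonneg (hc i) (hs i)
    have a3 := hMS Finset.univ (fun i => ss ρ θ i (θ l0) ^ 2) fun i _ => by positivity
    linarith
  · have hstart : Phi ρ θ κ k0 ∅ I R (θ l0) = ∑ i, ∑ j, κ i j * WW ρ θ i j := by
      unfold Phi
      have hG : ∀ i j, Gam ρ θ ∅ R i j (θ l0) = 0 := by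
        intro i j
        have b1 : S1 ρ θ ∅ (θ l0) = 0 := by simp [S1]
        have b2 : S2 ρ θ ∅ (θ l0) = 0 := by simp [S2]
        have b3 : S3 ρ θ ∅ (θ l0) = 0 := by simp [S3]
        unfold Gam
        rw [b1, b2, b3]; simp
      rw [hun]
      simp [hG]
    have hpos : 0 < S1 ρ θ ∅ (θ l0) + S1 ρ θ R (θ l0) := by
      have a : S1 ρ θ ∅ (θ l0) = 0 := by simp [S1]
      have b : 0 < S1 ρ θ R (θ l0) := Finset.sum_pos (fun r hr => by
        have := (ccR' (ρ := ρ) (θ := θ) hρ (r := r) (t := θ l0) (memR hr)
          (by linarith [(hθ r).2, (hθ l0).1])).ne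
        positivity) hRne
      linarith
    have hss : ss ρ θ l0 (θ l0) = 0 := by simp [ss]
    have hlv := Phi_leave (ρ := ρ) (θ := θ) hκs hκd hMS hl0I (Finset.notMem_empty l0) hl0R hdisj
      (fun r hr => hκo l0 r (memR hr)) hss hpos
    have hval : Valid θ (insert l0 ∅) (I.erase l0) R (θ l0) :=
      { hL := fun l hl => by
          rcases Finset.mem_insert.1 hl with e | hl
          · rw [e]
          · exact absurd hl (Finset.notMem_empty l)
        hI := fun i hi => ⟨hmin i, memI (Finset.mem_of_mem_erase hi)⟩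
        hR := fun r hr => (memR hr).le
        hLR := fun l hl r hr => by
          rcases Finset.mem_insert.1 hl with e | hl
          · rw [e]; exact memR hr
          · exact absurd hl (Finset.notMem_empty l)
        hLI := by
          rw [Finset.disjoint_left]
          intro x hx hx'
          rcases Finset.mem_insert.1 hx with e | hx
          · exact Finset.ne_of_mem_erase hx' e
          · exact absurd hx (Finset.notMem_empty x)
        hIR := hdisj.mono_left (Finset.erase_subset _ _)
        Lne := ⟨l0, Finset.mem_insert_self _ _⟩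
        Rne := hRne }
    have := Phi_nonneg hρ hθ hκs hκd hκo hMS _ _ _ _ _ hval rfl
    rw [← hstart]
    exact this.trans hlv

end induction

/-- The inequality for vectors in the open right half plane. -/
theorem bnd_half_core {V : Type} [Fintype V] (G : SimpleGraph V) [DecidableRel G.Adj] {r : ℕ}
    (hr : 1 ≤ r) (hG : G.CliqueFree (r + 1)) (v : V → ℝ × ℝ) (hpos : ∀ i, 0 < (v i).1)
    (hv : ∀ i j, G.Adj i j → 0 ≤ ip (v i) (v j)) : Bnd G r v := by
  classical
  let ρ : V → ℝ := fun i => Real.sqrt ((v i).1 ^ 2 + (v i).2 ^ 2)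
  let θ : V → ℝ := fun i => Real.arctan ((v i).2 / (v i).1)
  have hρ : ∀ i, 0 < ρ i := fun i => Real.sqrt_pos.2 (by have := hpos i; positivity)
  have hθ : ∀ i, -(Real.pi / 2) < θ i ∧ θ i < Real.pi / 2 := fun i =>
    ⟨Real.neg_pi_div_two_lt_arctan _, Real.arctan_lt_pi_div_two _⟩
  have hsq : ∀ i, Real.sqrt (1 + ((v i).2 / (v i).1) ^ 2) = ρ i / (v i).1 := by
    intro i
    have hx := hpos i
    rw [show 1 + ((v i).2 / (v i).1) ^ 2 = ((v i).1 ^ 2 + (v i).2 ^ 2) / (v i).1 ^ 2 by
      field_simp]
    rw [Real.sqrt_div (by positivity), Real.sqrt_sq hx.le]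
  have hcos : ∀ i, ρ i * Real.cos (θ i) = (v i).1 := by
    intro i
    have hx := hpos i
    have h1 := hρ i
    simp only [θ]
    rw [Real.cos_arctan, hsq i]
    field_simp
  have hsin : ∀ i, ρ i * Real.sin (θ i) = (v i).2 := by
    intro i
    have hx := hpos i
    have h1 := hρ i
    simp only [θ]
    rw [Real.sin_arctan, hsq i]
    field_simp
  have hip : ∀ i j, ip (v i) (v j) = ρ i * ρ j * Real.cos (θ i - θ j) := by
    intro i j
    unfold ip
    rw [Real.cos_sub, ← hcos i, ← hcos j, ← hsin i, ← hsin j]; ring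
  have hWW : ∀ i j, ip (v i) (v j) ^ 2 = WW ρ θ i j := by
    intro i j; rw [hip]; rfl
  let κ : V → V → ℝ := fun i j => (1 - 1 / (r : ℝ)) - (if G.Adj i j then 1 else 0)
  have key := core_ineq (ρ := ρ) (θ := θ) (κ := κ) (k0 := 1 - 1 / (r : ℝ)) hρ hθ
    (fun i j => by simp only [κ, G.adj_comm]) (fun i => by simp [κ])
    (fun i j hij => by
      have hcosneg : Real.cos (θ i - θ j) < 0 := by
        rw [← Real.cos_neg, neg_sub]
        exact Real.cos_neg_of_pi_div_two_lt_of_lt (by linarith)
          (by linarith [(hθ i).1, (hθ j).2])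
      have hnadj : ¬ G.Adj i j := fun hadj => by
        have h1 := hv i j hadj
        rw [hip] at h1
        have h2 : 0 < ρ i * ρ j := mul_pos (hρ i) (hρ j)
        nlinarith
      simp [κ, hnadj])
    (fun S h hh => by
      have hms := motzkin_straus G hr hG (fun i => if i ∈ S then h i else 0) (fun i => by
        by_cases hi : i ∈ S
        · simp only [hi, if_true]; exact hh i hi
        · simp [hi])
      have e1 : ∑ i, (if i ∈ S then h i else 0) = ∑ i ∈ S, h i := by
        rw [Finset.sum_ite_mem, Finset.univ_inter]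
      have e2 : ∑ i, ∑ j, (if G.Adj i j then (if i ∈ S then h i else 0) *
          (if j ∈ S then h j else 0) else 0) =
          ∑ i ∈ S, ∑ j ∈ S, (if G.Adj i j then h i * h j else 0) := by
        rw [← Finset.univ_inter S, ← Finset.sum_ite_mem]
        refine Finset.sum_congr rfl fun i _ => ?_
        by_cases hi : i ∈ S
        · simp only [Finset.univ_inter, hi, if_true]
          rw [← Finset.univ_inter S, ← Finset.sum_ite_mem]
          refine Finset.sum_congr rfl fun j _ => ?_
          by_cases hj : j ∈ S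
          · simp [hj]
          · simp [hj]
        · simp [hi]
      rw [e1, e2, sq, Finset.sum_mul_sum] at hms
      have e3 : ∑ i ∈ S, ∑ j ∈ S, κ i j * (h i * h j) =
          (1 - 1 / (r : ℝ)) * (∑ i ∈ S, ∑ j ∈ S, h i * h j) -
            ∑ i ∈ S, ∑ j ∈ S, (if G.Adj i j then h i * h j else 0) := by
        rw [Finset.mul_sum, ← Finset.sum_sub_distrib]
        refine Finset.sum_congr rfl fun i _ => ?_
        rw [Finset.mul_sum, ← Finset.sum_sub_distrib]
        refine Finset.sum_congr rfl fun j _ => ?_
        simp only [κ]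
        split_ifs <;> ring
      rw [e3]
      linarith)
  unfold Bnd
  have e4 : ∑ i, ∑ j, κ i j * WW ρ θ i j =
      (1 - 1 / (r : ℝ)) * ∑ i, ∑ j, ip (v i) (v j) ^ 2 -
        ∑ i, ∑ j, (if G.Adj i j then ip (v i) (v j) ^ 2 else 0) := by
    rw [Finset.mul_sum, ← Finset.sum_sub_distrib]
    refine Finset.sum_congr rfl fun i _ => ?_
    rw [Finset.mul_sum, ← Finset.sum_sub_distrib]
    refine Finset.sum_congr rfl fun j _ => ?_
    rw [hWW]
    simp only [κ]
    split_ifs <;> ring
  rw [e4] at key
  linarith

end Pool.Agent.Work.MP_f90287_co
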