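import Pool.Agent.Work.MP_f90287_co.Red3
import Pool.Agent.Work.MP_f90287_co.Core3

set_option autoImplicit false

namespace Pool.Agent.Work.MP_f90287_co

/-- The weighted inequality for vectors in the open right half plane. -/
theorem bnd_half : HalfBnd := fun _ _ G _ _ hr hG v hpos hv => bnd_half_core G hr hG v hpos hv

end Pool.Agent.Work.MP_f90287_co
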