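import Pool.Agent.Work.MP_f90287_co.Red

/-!
# The half-plane reduction, from the inequality itself
-/

set_option autoImplicit false

namespace Pool.Agent.Work.MP_f90287_co

open Finset

/-- The inequality for vectors in the open right half plane. -/
def HalfBnd : Prop := ∀ (V : Type) [Fintype V] (G : SimpleGraph V) [DecidableRel G.Adj] (r : ℕ),
  1 ≤ r → G.CliqueFree (r + 1) → ∀ v : V → ℝ × ℝ, (∀ i, 0 < (v i).1) →
  (∀ i j, G.Adj i j → 0 ≤ ip (v i) (v j)) → Bnd G r v

theorem halfBnd_of_cp (hCP : CPConj) : HalfBnd := fun V _ G _ _ hr hG v hpos hv =>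
  (hCP V v hpos).bound G hr hG hv

/-- The inequality for vectors in the closed right half plane, by a limit. -/
theorem bnd_closed_half (hH : HalfBnd) {V : Type} [Fintype V] (G : SimpleGraph V)
    [DecidableRel G.Adj] {r : ℕ} (hr : 1 ≤ r) (hG : G.CliqueFree (r + 1)) (v : V → ℝ × ℝ)
    (hpos : ∀ i, 0 ≤ (v i).1) (hv : ∀ i j, G.Adj i j → 0 ≤ ip (v i) (v j)) : Bnd G r v := by
  let u : ℝ → V → ℝ × ℝ := fun ε i => ((v i).1 + ε, (v i).2)
  have hu : ∀ ε > 0, Bnd G r (u ε) := by
    intro ε hε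
    refine hH V G r hr hG (u ε) (fun i => ?_) fun i j hij => ?_
    · have := hpos i
      simp only [u]; linarith
    · have h1 := hv i j hij
      have h2 := hpos i
      have h3 := hpos j
      unfold ip at h1 ⊢
      simp only [u]
      nlinarith [mul_nonneg h2 hε.le, mul_nonneg h3 hε.le, mul_pos hε hε]
  have hcont : ∀ i j, Continuous fun ε => ip (u ε i) (u ε j) ^ 2 := by
    intro i j
    unfold ip
    simp only [u]
    fun_prop
  have c1 : Continuous fun ε => ∑ i, ∑ j, if G.Adj i j then ip (u ε i) (u ε j) ^ 2 else 0 := by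
    refine continuous_finsetSum _ fun i _ => continuous_finsetSum _ fun j _ => ?_
    by_cases hij : G.Adj i j
    · simp only [hij, if_true]; exact hcont i j
    · simp only [hij, if_false]; exact continuous_const
  have c2 : Continuous fun ε => (1 - 1 / (r : ℝ)) * ∑ i, ∑ j, ip (u ε i) (u ε j) ^ 2 := by
    refine continuous_const.mul ?_
    exact continuous_finsetSum _ fun i _ => continuous_finsetSum _ fun j _ => hcont i j
  have h0 : u 0 = v := by
    funext i
    simp [u]
  have := le_of_tendsto_of_tendsto (b := nhdsWithin (0 : ℝ) (Set.Ioi 0))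
    ((c1.tendsto 0).mono_left nhdsWithin_le_nhds) ((c2.tendsto 0).mono_left nhdsWithin_le_nhds)
    (eventually_nhdsWithin_of_forall fun ε hε => hu ε hε)
  rw [h0] at this
  exact this

/-- The half-plane reduction. -/
theorem bnd_all_half (hH : HalfBnd) {V : Type} [Fintype V] (G : SimpleGraph V)
    [DecidableRel G.Adj] {r : ℕ} (hr : 1 ≤ r) (hG : G.CliqueFree (r + 1)) (v : V → ℝ × ℝ)
    (hv : ∀ i j, G.Adj i j → 0 ≤ ip (v i) (v j)) : Bnd G r v := by
  let X : ℝ → V → ℝ := fun θ i => (v i).1 * Real.cos θ + (v i).2 * Real.sin θ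
  let Y : ℝ → V → ℝ := fun θ i => -(v i).1 * Real.sin θ + (v i).2 * Real.cos θ
  let g : ℝ → ℝ := fun θ => ∑ i, |X θ i| * Y θ i
  have hg : Continuous g := by
    simp only [g, X, Y]
    fun_prop
  have hπ : g Real.pi = -g 0 := by
    simp only [g, X, Y, Real.cos_pi, Real.sin_pi, Real.cos_zero, Real.sin_zero]
    rw [← Finset.sum_neg_distrib]
    refine Finset.sum_congr rfl fun i _ => ?_
    simp
  obtain ⟨θ, hθ⟩ : ∃ θ, g θ = 0 := by
    rcases le_total 0 (g 0) with h0 | h0
    · obtain ⟨θ, _, hθ⟩ := intermediate_value_Icc' (f := g) Real.pi_pos.le hg.continuousOn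
        (show (0 : ℝ) ∈ Set.Icc (g Real.pi) (g 0) from ⟨by rw [hπ]; linarith, h0⟩)
      exact ⟨θ, hθ⟩
    · obtain ⟨θ, _, hθ⟩ := intermediate_value_Icc (f := g) Real.pi_pos.le hg.continuousOn
        (show (0 : ℝ) ∈ Set.Icc (g 0) (g Real.pi) from ⟨h0, by rw [hπ]; linarith⟩)
      exact ⟨θ, hθ⟩
  have hcs := Real.cos_sq_add_sin_sq θ
  have hip : ∀ i j, ip (v i) (v j) = X θ i * X θ j + Y θ i * Y θ j := by
    intro i j
    simp only [ip, X, Y]
    linear_combination (-((v i).1 * (v j).1 + (v i).2 * (v j).2)) * hcs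
  let u : V → ℝ × ℝ := fun i => (|X θ i|, Y θ i)
  have hle : ∀ i j, ip (v i) (v j) ≤ ip (u i) (u j) := by
    intro i j
    rw [hip]
    simp only [ip, u]
    have := le_abs_self (X θ i * X θ j)
    rw [abs_mul] at this
    linarith
  have hb := bnd_closed_half hH G hr hG u (fun i => abs_nonneg _)
    (fun i j hij => (hv i j hij).trans (hle i j))
  have hT : ∑ i, ∑ j, ip (u i) (u j) ^ 2 ≤ ∑ i, ∑ j, ip (v i) (v j) ^ 2 := by
    let w : V → ℝ × ℝ := fun i => (X θ i, Y θ i)
    have e : ∑ i, ∑ j, ip (v i) (v j) ^ 2 = ∑ i, ∑ j, ip (w i) (w j) ^ 2 := by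
      refine Finset.sum_congr rfl fun i _ => Finset.sum_congr rfl fun j _ => ?_
      rw [hip]; rfl
    rw [e, sum_ip_sq, sum_ip_sq]
    have h1 : ∑ i, (u i).1 * (u i).2 = 0 := hθ
    rw [h1]
    simp only [u, w, sq_abs]
    nlinarith [sq_nonneg (∑ i, X θ i * Y θ i)]
  have hc := coef_nonneg hr
  calc (∑ i, ∑ j, if G.Adj i j then ip (v i) (v j) ^ 2 else 0)
      ≤ ∑ i, ∑ j, if G.Adj i j then ip (u i) (u j) ^ 2 else 0 := by
        refine Finset.sum_le_sum fun i _ => Finset.sum_le_sum fun j _ => ?_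
        by_cases hij : G.Adj i j
        · simp only [hij, if_true]
          exact pow_le_pow_left₀ (hv i j hij) (hle i j) 2
        · simp [hij]
    _ ≤ _ := hb
    _ ≤ _ := mul_le_mul_of_nonneg_left hT hc

/-- The problem, from the inequality for the open half plane. -/
theorem s12499_of_half (hH : HalfBnd) :
    ∃ N : ℕ, ∀ ω : ℕ, N ≤ ω →
      ∀ (V : Type) [Fintype V] (G : SimpleGraph V) [DecidableRel G.Adj],
        G.CliqueFree (ω + 1) →
        (∃ s : Finset V, G.IsNClique ω s) →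
        ∀ v : V → ℝ × ℝ,
          (∀ i j, G.Adj i j → 0 ≤ (v i).1 * (v j).1 + (v i).2 * (v j).2) →
          (∑ i, ∑ j, if G.Adj i j then ((v i).1 * (v j).1 + (v i).2 * (v j).2) ^ 2 else 0)
            ≤ (1 - 1 / (ω : ℝ)) * ∑ i, ∑ j, ((v i).1 * (v j).1 + (v i).2 * (v j).2) ^ 2 :=
  ⟨1, fun _ hω _ _ G _ hG _ v hv => bnd_all_half hH G hω hG v hv⟩

end Pool.Agent.Work.MP_f90287_co
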