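import Pool.Agent.Work.MP_f90287_co.Red2
import Pool.Agent.Work.MP_f90287_co.Red3

/-!
# From the weighted inequality in the half plane to the Bollobás–Nikiforov conjecture
-/

set_option autoImplicit false

namespace Pool.Agent.Work.MP_f90287_co

open Finset Matrix

variable {V : Type} [Fintype V] [DecidableEq V] {G : SimpleGraph V} [DecidableRel G.Adj]

/-- The Bollobás–Nikiforov conjecture, from the half-plane inequality. -/
theorem s11451_of_half (hH : HalfBnd) (r : ℕ) (hr : 1 ≤ r) (hG : G.CliqueFree (r + 1))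
    (hV : r + 1 ≤ Fintype.card V) (hA : (G.adjMatrix ℝ).IsHermitian) (i j : V) (hij : i ≠ j)
    (hle : hA.eigenvalues j ≤ hA.eigenvalues i)
    (hk : ∀ k, k ≠ i → hA.eigenvalues k ≤ hA.eigenvalues j) :
    hA.eigenvalues i ^ 2 + hA.eigenvalues j ^ 2
      ≤ 2 * (1 - 1 / (r : ℝ)) * (G.edgeFinset.card : ℝ) := by
  classical
  obtain ⟨p, q, hpq, hadj⟩ := exists_nonadj hG hV
  have hadj' : ¬ G.Adj q p := fun h => hadj h.symm
  have hj : 0 ≤ hA.eigenvalues j := second_nonneg hA hpq (by simp) (by simp)
    (by simp [hadj]) (by simp [hadj']) i j hk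
  have hi : 0 ≤ hA.eigenvalues i := hj.trans hle
  set a := hA.eigenvalues i with ha
  set b := hA.eigenvalues j with hb
  set x := ev hA i with hx
  set y := ev hA j with hy
  have oxx : ∑ u, x u * x u = 1 := by have := ev_orth hA i i; rwa [if_pos rfl] at this
  have oyy : ∑ u, y u * y u = 1 := by have := ev_orth hA j j; rwa [if_pos rfl] at this
  have oxy : ∑ u, x u * y u = 0 := by have := ev_orth hA i j; rwa [if_neg hij] at this
  let v : V → ℝ × ℝ := fun u => (Real.sqrt a * x u, Real.sqrt b * y u)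
  have sa : Real.sqrt a * Real.sqrt a = a := Real.mul_self_sqrt hi
  have sb : Real.sqrt b * Real.sqrt b = b := Real.mul_self_sqrt hj
  have hipv : ∀ u w, ip (v u) (v w) = a * (x u * x w) + b * (y u * y w) := by
    intro u w
    simp only [ip, v]
    linear_combination (x u * x w) * sa + (y u * y w) * sb
  -- the total
  have hT : ∑ u, ∑ w, ip (v u) (v w) ^ 2 = a ^ 2 + b ^ 2 := by
    rw [sum_ip_sq]
    have t1 : ∑ u, (v u).1 ^ 2 = a := by
      calc ∑ u, (v u).1 ^ 2 = a * ∑ u, x u * x u := by
            rw [Finset.mul_sum]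
            refine Finset.sum_congr rfl fun u _ => ?_
            simp only [v]; linear_combination (x u * x u) * sa
        _ = a := by rw [oxx, mul_one]
    have t2 : ∑ u, (v u).2 ^ 2 = b := by
      calc ∑ u, (v u).2 ^ 2 = b * ∑ u, y u * y u := by
            rw [Finset.mul_sum]
            refine Finset.sum_congr rfl fun u _ => ?_
            simp only [v]; linear_combination (y u * y u) * sb
        _ = b := by rw [oyy, mul_one]
    have t3 : ∑ u, (v u).1 * (v u).2 = 0 := by
      calc ∑ u, (v u).1 * (v u).2 = (Real.sqrt a * Real.sqrt b) * ∑ u, x u * y u := by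
            rw [Finset.mul_sum]
            refine Finset.sum_congr rfl fun u _ => ?_
            simp only [v]; ring
        _ = 0 := by rw [oxy, mul_zero]
    rw [t1, t2, t3]; ring
  -- the sum over the edges
  have hS : ∑ u, ∑ w, (if G.Adj u w then ip (v u) (v w) else 0) = a ^ 2 + b ^ 2 := by
    have hx' : ∑ u, ∑ w, (G.adjMatrix ℝ) u w * (x u * x w) = a := by
      calc ∑ u, ∑ w, (G.adjMatrix ℝ) u w * (x u * x w) = ∑ u, x u * (a * x u) := by
            refine Finset.sum_congr rfl fun u _ => ?_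
            rw [ha, hx, ← ev_mul, Finset.mul_sum]
            exact Finset.sum_congr rfl fun w _ => by ring
        _ = a * ∑ u, x u * x u := by
            rw [Finset.mul_sum]; exact Finset.sum_congr rfl fun u _ => by ring
        _ = a := by rw [oxx, mul_one]
    have hy' : ∑ u, ∑ w, (G.adjMatrix ℝ) u w * (y u * y w) = b := by
      calc ∑ u, ∑ w, (G.adjMatrix ℝ) u w * (y u * y w) = ∑ u, y u * (b * y u) := by
            refine Finset.sum_congr rfl fun u _ => ?_
            rw [hb, hy, ← ev_mul, Finset.mul_sum]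
            exact Finset.sum_congr rfl fun w _ => by ring
        _ = b * ∑ u, y u * y u := by
            rw [Finset.mul_sum]; exact Finset.sum_congr rfl fun u _ => by ring
        _ = b := by rw [oyy, mul_one]
    calc ∑ u, ∑ w, (if G.Adj u w then ip (v u) (v w) else 0) =
        a * (∑ u, ∑ w, (G.adjMatrix ℝ) u w * (x u * x w)) +
        b * (∑ u, ∑ w, (G.adjMatrix ℝ) u w * (y u * y w)) := by
          rw [Finset.mul_sum, Finset.mul_sum, ← Finset.sum_add_distrib]
          refine Finset.sum_congr rfl fun u _ => ?_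
          rw [Finset.mul_sum, Finset.mul_sum, ← Finset.sum_add_distrib]
          refine Finset.sum_congr rfl fun w _ => ?_
          rw [hipv, SimpleGraph.adjMatrix_apply]
          split_ifs <;> ring
      _ = a ^ 2 + b ^ 2 := by rw [hx', hy']; ring
  -- the subgraph of the edges with nonnegative inner product
  let H : SimpleGraph V :=
    { Adj := fun u w => G.Adj u w ∧ 0 ≤ ip (v u) (v w)
      symm := ⟨fun u w h => ⟨h.1.symm, by rw [ip_comm]; exact h.2⟩⟩
      loopless := ⟨fun u h => G.irrefl h.1⟩ }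
  have hHG : H ≤ G := fun u w h => h.1
  have hHf : H.CliqueFree (r + 1) := hG.anti hHG
  have hHadj : ∀ u w, H.Adj u w ↔ G.Adj u w ∧ 0 ≤ ip (v u) (v w) := fun u w => Iff.rfl
  have hbnd := bnd_all_half hH H hr hHf v fun u w h => h.2
  unfold Bnd at hbnd
  rw [hT] at hbnd
  -- Cauchy–Schwarz
  have hm : ∑ u, ∑ w, (if G.Adj u w then (1 : ℝ) else 0) = 2 * (G.edgeFinset.card : ℝ) := by
    have h1 := G.sum_degrees_eq_twice_card_edges
    have h2 : ∀ u, ∑ w, (if G.Adj u w then (1 : ℝ) else 0) = G.degree u := by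
      intro u
      rw [Finset.sum_boole, ← SimpleGraph.card_neighborFinset_eq_degree,
        SimpleGraph.neighborFinset_eq_filter]
    simp only [h2]
    rw [← Nat.cast_sum, h1]
    push_cast
    ring
  have h1 : a ^ 2 + b ^ 2 ≤ ∑ u, ∑ w, (if H.Adj u w then ip (v u) (v w) else 0) := by
    rw [← hS]
    refine Finset.sum_le_sum fun u _ => Finset.sum_le_sum fun w _ => ?_
    by_cases hg : G.Adj u w
    · by_cases hp : 0 ≤ ip (v u) (v w)
      · simp [hHadj, hg, hp]
      · simp only [hHadj, hg, hp, and_false, if_true, if_false]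
        exact (not_le.1 hp).le
    · simp [hHadj, hg]
  have h2 : (∑ u, ∑ w, (if H.Adj u w then ip (v u) (v w) else 0)) ^ 2 ≤
      (∑ u, ∑ w, (if G.Adj u w then (1 : ℝ) else 0)) *
      ∑ u, ∑ w, (if H.Adj u w then ip (v u) (v w) ^ 2 else 0) := by
    rw [← Finset.sum_product', ← Finset.sum_product', ← Finset.sum_product']
    have cs := Finset.sum_mul_sq_le_sq_mul_sq (Finset.univ ×ˢ Finset.univ : Finset (V × V))
      (fun e => if G.Adj e.1 e.2 then (1 : ℝ) else 0)
      (fun e => if H.Adj e.1 e.2 then ip (v e.1) (v e.2) else 0)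
    have e1 : ∀ e : V × V, (if G.Adj e.1 e.2 then (1 : ℝ) else 0) *
        (if H.Adj e.1 e.2 then ip (v e.1) (v e.2) else 0) =
        if H.Adj e.1 e.2 then ip (v e.1) (v e.2) else 0 := by
      intro e
      by_cases hg : G.Adj e.1 e.2
      · simp [hg]
      · simp [hg, hHadj]
    have e2 : ∀ e : V × V, (if G.Adj e.1 e.2 then (1 : ℝ) else 0) ^ 2 =
        (if G.Adj e.1 e.2 then (1 : ℝ) else 0) := by
      intro e; split_ifs <;> norm_num
    have e3 : ∀ e : V × V, (if H.Adj e.1 e.2 then ip (v e.1) (v e.2) else 0) ^ 2 =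
        (if H.Adj e.1 e.2 then ip (v e.1) (v e.2) ^ 2 else 0) := by
      intro e; split_ifs <;> norm_num
    simp only [e1, e2, e3] at cs
    exact cs
  rw [hm] at h2
  set S := a ^ 2 + b ^ 2 with hSdef
  have hS0 : 0 ≤ S := by positivity
  have h3 : S ^ 2 ≤ 2 * (G.edgeFinset.card : ℝ) * ((1 - 1 / (r : ℝ)) * S) := by
    calc S ^ 2 ≤ (∑ u, ∑ w, (if H.Adj u w then ip (v u) (v w) else 0)) ^ 2 :=
          pow_le_pow_left₀ hS0 h1 2
      _ ≤ _ := h2
      _ ≤ _ := mul_le_mul_of_nonneg_left hbnd (by positivity)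
  have hc := coef_nonneg hr
  rcases hS0.eq_or_lt with h0 | h0
  · rw [← h0]; positivity
  · have : S * S ≤ (2 * (1 - 1 / (r : ℝ)) * (G.edgeFinset.card : ℝ)) * S := by nlinarith
    exact le_of_mul_le_mul_right this h0

end Pool.Agent.Work.MP_f90287_co
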