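import Pool.Agent.Work.MP_f90287_co.Half
import Pool.Agent.Work.MP_f90287_co.Red4

set_option autoImplicit false

namespace Pool.Agent.Work.MP_f90287_co

/-- The Bollobás–Nikiforov inequality, as a corollary (kept as a helper file, not a hand-in). -/
theorem bollobas_nikiforov :
    ∀ (V : Type) [Fintype V] [DecidableEq V] (G : SimpleGraph V) [DecidableRel G.Adj] (r : ℕ),
      1 ≤ r → G.CliqueFree (r + 1) → r + 1 ≤ Fintype.card V →
      ∀ (hA : (G.adjMatrix ℝ).IsHermitian) (i j : V), i ≠ j →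
        hA.eigenvalues j ≤ hA.eigenvalues i →
        (∀ k, k ≠ i → hA.eigenvalues k ≤ hA.eigenvalues j) →
        hA.eigenvalues i ^ 2 + hA.eigenvalues j ^ 2
          ≤ 2 * (1 - 1 / (r : ℝ)) * (G.edgeFinset.card : ℝ) :=
  fun _ _ _ _ _ r hr hG hV hA i j hij hle hk =>
    s11451_of_half bnd_half r hr hG hV hA i j hij hle hk

end Pool.Agent.Work.MP_f90287_co
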