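import Pool.Agent.Work.MP_f90287_co.Red

/-!
# The moving window decomposition

Vectors `v i = ρ i (cos θ i, sin θ i)` with `-π/2 < θ i < π/2`.  In the frame at angle `t` the
coordinates of `v i` are `cc i t`, `ss i t`.  The vertices with `t ≤ θ i ≤ t + π/2` are in the
window.  The form `Gam` is diagonal in the moving frame, grows while `t` moves, and its growth is a
sum of squares of nonnegative functions.
-/

set_option autoImplicit false

namespace Pool.Agent.Work.MP_f90287_co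

open Finset

section core

variable {V : Type} (ρ θ : V → ℝ)

/-- first coordinate in the frame at angle `t` -/
noncomputable def cc (i : V) (t : ℝ) : ℝ := ρ i * Real.cos (θ i - t)

/-- second coordinate in the frame at angle `t` -/
noncomputable def ss (i : V) (t : ℝ) : ℝ := ρ i * Real.sin (θ i - t)

/-- second moments -/
noncomputable def S1 (O : Finset V) (t : ℝ) : ℝ := ∑ i ∈ O, cc ρ θ i t ^ 2

/-- second moments -/
noncomputable def S2 (O : Finset V) (t : ℝ) : ℝ := -∑ i ∈ O, cc ρ θ i t * ss ρ θ i t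

/-- second moments -/
noncomputable def S3 (O : Finset V) (t : ℝ) : ℝ := ∑ i ∈ O, ss ρ θ i t ^ 2

/-- squared inner products -/
noncomputable def WW (i j : V) : ℝ := (ρ i * ρ j * Real.cos (θ i - θ j)) ^ 2

theorem WW_eq (i j : V) (t : ℝ) :
    WW ρ θ i j = (cc ρ θ i t * cc ρ θ j t + ss ρ θ i t * ss ρ θ j t) ^ 2 := by
  have h : Real.cos (θ i - θ j) = Real.cos (θ i - t) * Real.cos (θ j - t) +
      Real.sin (θ i - t) * Real.sin (θ j - t) := by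
    rw [← Real.cos_sub]; congr 1; ring
  unfold WW cc ss
  rw [h]; ring

theorem hasDerivAt_cc (i : V) (t : ℝ) : HasDerivAt (cc ρ θ i) (ss ρ θ i t) t := by
  have h1 : HasDerivAt (fun t => θ i - t) (-1) t := by
    simpa using (hasDerivAt_id t).const_sub (θ i)
  have h2 := (h1.cos).const_mul (ρ i)
  refine h2.congr_deriv ?_
  unfold ss; ring

theorem hasDerivAt_ss (i : V) (t : ℝ) : HasDerivAt (ss ρ θ i) (-cc ρ θ i t) t := by
  have h1 : HasDerivAt (fun t => θ i - t) (-1) t := by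
    simpa using (hasDerivAt_id t).const_sub (θ i)
  have h2 := (h1.sin).const_mul (ρ i)
  refine h2.congr_deriv ?_
  unfold cc; ring

theorem hasDerivAt_S1 (O : Finset V) (t : ℝ) : HasDerivAt (S1 ρ θ O) (-2 * S2 ρ θ O t) t := by
  have h : HasDerivAt (S1 ρ θ O)
      (∑ i ∈ O, ((2 : ℕ) : ℝ) * cc ρ θ i t ^ (2 - 1) * ss ρ θ i t) t := by
    unfold S1
    exact HasDerivAt.fun_sum fun i _ => (hasDerivAt_cc ρ θ i t).pow 2
  refine h.congr_deriv ?_
  unfold S2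
  rw [mul_neg, neg_mul, neg_neg, Finset.mul_sum]
  exact Finset.sum_congr rfl fun i _ => by norm_num; ring

theorem hasDerivAt_S3 (O : Finset V) (t : ℝ) : HasDerivAt (S3 ρ θ O) (2 * S2 ρ θ O t) t := by
  have h : HasDerivAt (S3 ρ θ O)
      (∑ i ∈ O, ((2 : ℕ) : ℝ) * ss ρ θ i t ^ (2 - 1) * (-cc ρ θ i t)) t := by
    unfold S3
    exact HasDerivAt.fun_sum fun i _ => (hasDerivAt_ss ρ θ i t).pow 2
  refine h.congr_deriv ?_
  unfold S2
  rw [mul_neg, Finset.mul_sum, ← Finset.sum_neg_distrib]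
  exact Finset.sum_congr rfl fun i _ => by norm_num; ring

theorem hasDerivAt_S2 (O : Finset V) (t : ℝ) :
    HasDerivAt (S2 ρ θ O) (S1 ρ θ O t - S3 ρ θ O t) t := by
  have h : HasDerivAt (S2 ρ θ O)
      (-∑ i ∈ O, (ss ρ θ i t * ss ρ θ i t + cc ρ θ i t * (-cc ρ θ i t))) t := by
    unfold S2
    exact (HasDerivAt.fun_sum fun i _ => (hasDerivAt_cc ρ θ i t).mul (hasDerivAt_ss ρ θ i t)).neg
  refine h.congr_deriv ?_
  unfold S1 S3
  rw [← Finset.sum_neg_distrib, ← Finset.sum_sub_distrib]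
  exact Finset.sum_congr rfl fun i _ => by ring

/-- The moving form. -/
noncomputable def Gam (L R : Finset V) (i j : V) (t : ℝ) : ℝ :=
  S1 ρ θ L t / (S1 ρ θ L t + S1 ρ θ R t) * (cc ρ θ i t ^ 2 * cc ρ θ j t ^ 2) +
  S2 ρ θ L t / (S2 ρ θ L t + S2 ρ θ R t) *
    (2 * (cc ρ θ i t * ss ρ θ i t) * (cc ρ θ j t * ss ρ θ j t)) +
  S3 ρ θ L t / (S3 ρ θ L t + S3 ρ θ R t) * (ss ρ θ i t ^ 2 * ss ρ θ j t ^ 2)

noncomputable def AA (L R : Finset V) (t : ℝ) : ℝ :=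
  S1 ρ θ L t * S2 ρ θ R t - S2 ρ θ L t * S1 ρ θ R t

noncomputable def BB (L R : Finset V) (t : ℝ) : ℝ :=
  S2 ρ θ L t * S3 ρ θ R t - S3 ρ θ L t * S2 ρ θ R t

noncomputable def UU (L R : Finset V) (t : ℝ) (i : V) : ℝ :=
  cc ρ θ i t ^ 2 / (S1 ρ θ L t + S1 ρ θ R t) + cc ρ θ i t * ss ρ θ i t / (S2 ρ θ L t + S2 ρ θ R t)

noncomputable def XX (L R : Finset V) (t : ℝ) (i : V) : ℝ :=
  cc ρ θ i t * ss ρ θ i t / (S2 ρ θ L t + S2 ρ θ R t) + ss ρ θ i t ^ 2 / (S3 ρ θ L t + S3 ρ θ R t)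

theorem hasDerivAt_Gam (L R : Finset V) (i j : V) (t : ℝ)
    (h1 : S1 ρ θ L t + S1 ρ θ R t ≠ 0) (h2 : S2 ρ θ L t + S2 ρ θ R t ≠ 0)
    (h3 : S3 ρ θ L t + S3 ρ θ R t ≠ 0) :
    HasDerivAt (Gam ρ θ L R i j)
      (2 * AA ρ θ L R t * (UU ρ θ L R t i * UU ρ θ L R t j) +
        2 * BB ρ θ L R t * (XX ρ θ L R t i * XX ρ θ L R t j)) t := by
  have d1 := (hasDerivAt_S1 ρ θ L t).div ((hasDerivAt_S1 ρ θ L t).add (hasDerivAt_S1 ρ θ R t)) h1
  have d2 := (hasDerivAt_S2 ρ θ L t).div ((hasDerivAt_S2 ρ θ L t).add (hasDerivAt_S2 ρ θ R t)) h2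
  have d3 := (hasDerivAt_S3 ρ θ L t).div ((hasDerivAt_S3 ρ θ L t).add (hasDerivAt_S3 ρ θ R t)) h3
  have ci := hasDerivAt_cc ρ θ i t
  have cj := hasDerivAt_cc ρ θ j t
  have si := hasDerivAt_ss ρ θ i t
  have sj := hasDerivAt_ss ρ θ j t
  have e1 := d1.mul ((ci.pow 2).mul (cj.pow 2))
  have e2 := d2.mul (((ci.mul si).const_mul 2).mul (cj.mul sj))
  have e3 := d3.mul ((si.pow 2).mul (sj.pow 2))
  refine ((e1.add e2).add e3).congr_deriv ?_
  unfold AA BB UU XX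
  simp only [Pi.add_apply, Pi.mul_apply, Pi.pow_apply, Pi.div_apply]
  generalize S1 ρ θ L t = a at *
  generalize S2 ρ θ L t = b at *
  generalize S3 ρ θ L t = c at *
  generalize S1 ρ θ R t = a' at *
  generalize S2 ρ θ R t = b' at *
  generalize S3 ρ θ R t = c' at *
  generalize cc ρ θ i t = p
  generalize ss ρ θ i t = q
  generalize cc ρ θ j t = p'
  generalize ss ρ θ j t = q'
  field_simp
  ring

theorem cross_eq (l r : V) (t : ℝ) :
    cc ρ θ l t * ss ρ θ r t - ss ρ θ l t * cc ρ θ r t = ρ l * ρ r * Real.sin (θ r - θ l) := by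
  have h : Real.sin (θ r - θ l) = Real.sin (θ r - t) * Real.cos (θ l - t) -
      Real.cos (θ r - t) * Real.sin (θ l - t) := by
    rw [← Real.sin_sub]; congr 1; ring
  unfold cc ss
  rw [h]; ring

theorem AA_eq (L R : Finset V) (t : ℝ) : AA ρ θ L R t =
    ∑ l ∈ L, ∑ r ∈ R, cc ρ θ l t * (-cc ρ θ r t) * (ρ l * ρ r * Real.sin (θ r - θ l)) := by
  unfold AA S1 S2
  rw [mul_neg, neg_mul, sub_neg_eq_add, Finset.sum_mul_sum, Finset.sum_mul_sum,
    ← Finset.sum_neg_distrib, ← Finset.sum_add_distrib]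
  refine Finset.sum_congr rfl fun l _ => ?_
  rw [← Finset.sum_neg_distrib, ← Finset.sum_add_distrib]
  refine Finset.sum_congr rfl fun r _ => ?_
  rw [← cross_eq ρ θ l r t]; ring

theorem BB_eq (L R : Finset V) (t : ℝ) : BB ρ θ L R t =
    ∑ l ∈ L, ∑ r ∈ R, (-ss ρ θ l t) * ss ρ θ r t * (ρ l * ρ r * Real.sin (θ r - θ l)) := by
  unfold BB S2 S3
  rw [neg_mul, mul_neg, sub_neg_eq_add, Finset.sum_mul_sum, Finset.sum_mul_sum,
    ← Finset.sum_neg_distrib, ← Finset.sum_add_distrib]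
  refine Finset.sum_congr rfl fun l _ => ?_
  rw [← Finset.sum_neg_distrib, ← Finset.sum_add_distrib]
  refine Finset.sum_congr rfl fun r _ => ?_
  rw [← cross_eq ρ θ l r t]; ring

/-- The state of the process at time `t`. -/
structure Valid (L I R : Finset V) (t : ℝ) : Prop where
  hL : ∀ l ∈ L, θ l ≤ t
  hI : ∀ i ∈ I, t ≤ θ i ∧ θ i ≤ t + Real.pi / 2
  hR : ∀ r ∈ R, t + Real.pi / 2 ≤ θ r
  hLR : ∀ l ∈ L, ∀ r ∈ R, θ l + Real.pi / 2 < θ r
  hLI : Disjoint L I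
  hIR : Disjoint I R
  Lne : L.Nonempty
  Rne : R.Nonempty

variable {ρ θ}

section signs

variable (hρ : ∀ i, 0 < ρ i)
include hρ

theorem ccL {l : V} {t : ℝ} (h1 : θ l ≤ t) (h2 : t < θ l + Real.pi / 2) : 0 < cc ρ θ l t :=
  mul_pos (hρ l) (Real.cos_pos_of_mem_Ioo ⟨by linarith, by linarith [Real.pi_pos]⟩)

theorem ssL {l : V} {t : ℝ} (h1 : θ l ≤ t) (h2 : t < θ l + Real.pi / 2) : ss ρ θ l t ≤ 0 := by
  have := Real.sin_nonpos_of_nonpos_of_neg_pi_le (x := θ l - t) (by linarith)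
    (by linarith [Real.pi_pos])
  exact mul_nonpos_of_nonneg_of_nonpos (hρ l).le this

theorem ssL' {l : V} {t : ℝ} (h1 : θ l < t) (h2 : t < θ l + Real.pi / 2) : ss ρ θ l t < 0 := by
  have := Real.sin_neg_of_neg_of_neg_pi_lt (x := θ l - t) (by linarith)
    (by linarith [Real.pi_pos])
  exact mul_neg_of_pos_of_neg (hρ l) this

theorem ccI {i : V} {t : ℝ} (h1 : t ≤ θ i) (h2 : θ i ≤ t + Real.pi / 2) : 0 ≤ cc ρ θ i t :=
  mul_nonneg (hρ i).le (Real.cos_nonneg_of_mem_Icc ⟨by linarith [Real.pi_pos], by linarith⟩)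

theorem ssI {i : V} {t : ℝ} (h1 : t ≤ θ i) (h2 : θ i ≤ t + Real.pi / 2) : 0 ≤ ss ρ θ i t :=
  mul_nonneg (hρ i).le (Real.sin_nonneg_of_nonneg_of_le_pi (by linarith)
    (by linarith [Real.pi_pos]))

theorem ccR {r : V} {t : ℝ} (h1 : t + Real.pi / 2 ≤ θ r) (h2 : θ r < t + Real.pi) :
    cc ρ θ r t ≤ 0 := by
  have := Real.cos_nonpos_of_pi_div_two_le_of_le (x := θ r - t) (by linarith)
    (by linarith [Real.pi_pos])
  exact mul_nonpos_of_nonneg_of_nonpos (hρ r).le this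

theorem ccR' {r : V} {t : ℝ} (h1 : t + Real.pi / 2 < θ r) (h2 : θ r < t + Real.pi) :
    cc ρ θ r t < 0 := by
  have := Real.cos_neg_of_pi_div_two_lt_of_lt (x := θ r - t) (by linarith)
    (by linarith [Real.pi_pos])
  exact mul_neg_of_pos_of_neg (hρ r) this

theorem ssR {r : V} {t : ℝ} (h1 : t + Real.pi / 2 ≤ θ r) (h2 : θ r < t + Real.pi) :
    0 < ss ρ θ r t :=
  mul_pos (hρ r) (Real.sin_pos_of_pos_of_lt_pi (by linarith [Real.pi_pos]) (by linarith))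

variable (hθ : ∀ i, -(Real.pi / 2) < θ i ∧ θ i < Real.pi / 2)
include hθ

/-- The positivity facts at a time between the present and the next event. -/
theorem pos_facts {L I R : Finset V} {t t' τ : ℝ} (h : Valid θ L I R t) (h1 : t ≤ τ)
    (h2 : τ ≤ t') (hR' : ∀ r ∈ R, t' + Real.pi / 2 ≤ θ r) :
    0 < S1 ρ θ L τ ∧ 0 ≤ S1 ρ θ R τ ∧ 0 ≤ S2 ρ θ L τ ∧ 0 ≤ S2 ρ θ R τ ∧
      0 < S2 ρ θ L τ + S2 ρ θ R τ ∧ 0 ≤ S3 ρ θ L τ ∧ 0 < S3 ρ θ R τ ∧
      0 ≤ AA ρ θ L R τ ∧ 0 ≤ BB ρ θ L R τ := by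
  obtain ⟨l0, hl0⟩ := h.Lne
  obtain ⟨r0, hr0⟩ := h.Rne
  have t1 : -(Real.pi / 2) < τ := lt_of_lt_of_le (hθ l0).1 ((h.hL l0 hl0).trans h1)
  have t2 : τ < 0 := by
    have := hR' r0 hr0
    have := (hθ r0).2
    linarith
  have cl : ∀ l ∈ L, 0 < cc ρ θ l τ := fun l hl =>
    ccL hρ ((h.hL l hl).trans h1) (by linarith [(hθ l).1])
  have sl : ∀ l ∈ L, ss ρ θ l τ ≤ 0 := fun l hl =>
    ssL hρ ((h.hL l hl).trans h1) (by linarith [(hθ l).1])
  have cr : ∀ r ∈ R, cc ρ θ r τ ≤ 0 := fun r hr =>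
    ccR hρ (by linarith [hR' r hr]) (by linarith [(hθ r).2])
  have sr : ∀ r ∈ R, 0 < ss ρ θ r τ := fun r hr =>
    ssR hρ (by linarith [hR' r hr]) (by linarith [(hθ r).2])
  have snn : ∀ l ∈ L, ∀ r ∈ R, 0 ≤ ρ l * ρ r * Real.sin (θ r - θ l) := fun l hl r hr =>
    mul_nonneg (mul_nonneg (hρ l).le (hρ r).le) (Real.sin_nonneg_of_nonneg_of_le_pi
      (by linarith [h.hLR l hl r hr, Real.pi_pos]) (by linarith [(hθ l).1, (hθ r).2]))
  refine ⟨Finset.sum_pos (fun l hl => pow_pos (cl l hl) 2) h.Lne,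
    Finset.sum_nonneg fun r _ => sq_nonneg _, ?_, ?_, ?_,
    Finset.sum_nonneg fun r _ => sq_nonneg _,
    Finset.sum_pos (fun r hr => pow_pos (sr r hr) 2) h.Rne, ?_, ?_⟩
  · unfold S2
    rw [← Finset.sum_neg_distrib]
    exact Finset.sum_nonneg fun l hl => by nlinarith [cl l hl, sl l hl]
  · unfold S2
    rw [← Finset.sum_neg_distrib]
    exact Finset.sum_nonneg fun r hr => by nlinarith [cr r hr, sr r hr]
  · have e : S2 ρ θ L τ + S2 ρ θ R τ =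
        ∑ l ∈ L, -(cc ρ θ l τ * ss ρ θ l τ) + ∑ r ∈ R, -(cc ρ θ r τ * ss ρ θ r τ) := by
      unfold S2
      rw [Finset.sum_neg_distrib, Finset.sum_neg_distrib]
    rw [e]
    have n1 : 0 ≤ ∑ l ∈ L, -(cc ρ θ l τ * ss ρ θ l τ) :=
      Finset.sum_nonneg fun l hl => by nlinarith [cl l hl, sl l hl]
    have n2 : 0 ≤ ∑ r ∈ R, -(cc ρ θ r τ * ss ρ θ r τ) :=
      Finset.sum_nonneg fun r hr => by nlinarith [cr r hr, sr r hr]
    rcases lt_or_ge (θ l0) τ with hlt | hge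
    · have : 0 < ∑ l ∈ L, -(cc ρ θ l τ * ss ρ θ l τ) := by
        refine Finset.sum_pos' (fun l hl => by nlinarith [cl l hl, sl l hl]) ⟨l0, hl0, ?_⟩
        have := ssL' hρ hlt (by linarith [(hθ l0).1])
        nlinarith [cl l0 hl0]
      linarith
    · have : 0 < ∑ r ∈ R, -(cc ρ θ r τ * ss ρ θ r τ) := by
        refine Finset.sum_pos' (fun r hr => by nlinarith [cr r hr, sr r hr]) ⟨r0, hr0, ?_⟩
        have := ccR' (ρ := ρ) (θ := θ) hρ (r := r0) (t := τ)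
          (by linarith [h.hLR l0 hl0 r0 hr0]) (by linarith [(hθ r0).2])
        nlinarith [sr r0 hr0]
      linarith
  · rw [AA_eq]
    refine Finset.sum_nonneg fun l hl => Finset.sum_nonneg fun r hr => ?_
    exact mul_nonneg (mul_nonneg (cl l hl).le (by linarith [cr r hr])) (snn l hl r hr)
  · rw [BB_eq]
    refine Finset.sum_nonneg fun l hl => Finset.sum_nonneg fun r hr => ?_
    exact mul_nonneg (mul_nonneg (by linarith [sl l hl]) (sr r hr).le) (snn l hl r hr)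

end signs

/-- The remaining total. -/
noncomputable def Phi [DecidableEq V] (ρ θ : V → ℝ) (κ : V → V → ℝ) (k0 : ℝ)
    (L I R : Finset V) (t : ℝ) : ℝ :=
  ∑ i ∈ I ∪ R, ∑ j ∈ I ∪ R, κ i j * WW ρ θ i j - ∑ i ∈ I, ∑ j ∈ I, κ i j * Gam ρ θ L R i j t +
    k0 * ∑ l ∈ L, ∑ r ∈ R, WW ρ θ l r

variable [DecidableEq V] {κ : V → V → ℝ} {k0 : ℝ}

theorem Phi_smooth (hρ : ∀ i, 0 < ρ i) (hθ : ∀ i, -(Real.pi / 2) < θ i ∧ θ i < Real.pi / 2)
    (hMS : ∀ (S : Finset V) (h : V → ℝ), (∀ i ∈ S, 0 ≤ h i) →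
      0 ≤ ∑ i ∈ S, ∑ j ∈ S, κ i j * (h i * h j))
    {L I R : Finset V} {t t' : ℝ} (h : Valid θ L I R t) (htt : t ≤ t')
    (hI' : ∀ i ∈ I, t' ≤ θ i) (hR' : ∀ r ∈ R, t' + Real.pi / 2 ≤ θ r) :
    Phi ρ θ κ k0 L I R t' ≤ Phi ρ θ κ k0 L I R t := by
  have hd : ∀ τ ∈ Set.Icc t t', HasDerivAt (fun τ => ∑ i ∈ I, ∑ j ∈ I, κ i j * Gam ρ θ L R i j τ)
      (∑ i ∈ I, ∑ j ∈ I, κ i j * (2 * AA ρ θ L R τ * (UU ρ θ L R τ i * UU ρ θ L R τ j) +
        2 * BB ρ θ L R τ * (XX ρ θ L R τ i * XX ρ θ L R τ j))) τ := by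
    intro τ hτ
    obtain ⟨p1, p2, p3, p4, p5, p6, p7, -, -⟩ := pos_facts hρ hθ h hτ.1 hτ.2 hR'
    exact HasDerivAt.fun_sum fun i _ => HasDerivAt.fun_sum fun j _ =>
      (hasDerivAt_Gam ρ θ L R i j τ (by positivity) p5.ne' (by positivity)).const_mul (κ i j)
  have hmono : MonotoneOn (fun τ => ∑ i ∈ I, ∑ j ∈ I, κ i j * Gam ρ θ L R i j τ)
      (Set.Icc t t') := by
    refine monotoneOn_of_deriv_nonneg (convex_Icc t t')
      (fun τ hτ => (hd τ hτ).continuousAt.continuousWithinAt)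
      (fun τ hτ => (hd τ (interior_subset hτ)).differentiableAt.differentiableWithinAt) ?_
    intro τ hτ
    have hτ' := interior_subset hτ
    rw [(hd τ hτ').deriv]
    obtain ⟨p1, p2, p3, p4, p5, p6, p7, p8, p9⟩ := pos_facts hρ hθ h hτ'.1 hτ'.2 hR'
    have e : ∑ i ∈ I, ∑ j ∈ I, κ i j * (2 * AA ρ θ L R τ * (UU ρ θ L R τ i * UU ρ θ L R τ j) +
        2 * BB ρ θ L R τ * (XX ρ θ L R τ i * XX ρ θ L R τ j)) =
        2 * AA ρ θ L R τ * (∑ i ∈ I, ∑ j ∈ I, κ i j * (UU ρ θ L R τ i * UU ρ θ L R τ j)) +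
        2 * BB ρ θ L R τ * (∑ i ∈ I, ∑ j ∈ I, κ i j * (XX ρ θ L R τ i * XX ρ θ L R τ j)) := by
      rw [Finset.mul_sum, Finset.mul_sum, ← Finset.sum_add_distrib]
      refine Finset.sum_congr rfl fun i _ => ?_
      rw [Finset.mul_sum, Finset.mul_sum, ← Finset.sum_add_distrib]
      exact Finset.sum_congr rfl fun j _ => by ring
    rw [e]
    have hc : ∀ i ∈ I, 0 ≤ cc ρ θ i τ := fun i hi =>
      ccI hρ (hτ'.2.trans (hI' i hi)) (by linarith [(h.hI i hi).2, hτ'.1])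
    have hs : ∀ i ∈ I, 0 ≤ ss ρ θ i τ := fun i hi =>
      ssI hρ (hτ'.2.trans (hI' i hi)) (by linarith [(h.hI i hi).2, hτ'.1])
    have u0 : 0 ≤ ∑ i ∈ I, ∑ j ∈ I, κ i j * (UU ρ θ L R τ i * UU ρ θ L R τ j) := by
      refine hMS I _ fun i hi => ?_
      have := hc i hi
      have := hs i hi
      unfold UU
      positivity
    have x0 : 0 ≤ ∑ i ∈ I, ∑ j ∈ I, κ i j * (XX ρ θ L R τ i * XX ρ θ L R τ j) := by
      refine hMS I _ fun i hi => ?_
      have := hc i hi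
      have := hs i hi
      unfold XX
      positivity
    positivity
  have := hmono ⟨le_refl t, htt⟩ ⟨htt, le_refl t'⟩ htt
  unfold Phi
  simp only at this
  linarith

end core

end Pool.Agent.Work.MP_f90287_co
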