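import Pool.Agent.Work.MP_f90287_co.Core

/-!
# The jumps and the induction over the events
-/

set_option autoImplicit false

namespace Pool.Agent.Work.MP_f90287_co

open Finset

variable {V : Type} [DecidableEq V] {ρ θ : V → ℝ} {κ : V → V → ℝ} {k0 : ℝ}

theorem sum_sq_insert {F : V → V → ℝ} (hs : ∀ i j, F i j = F j i) {r : V} {I : Finset V}
    (hr : r ∉ I) : ∑ i ∈ insert r I, ∑ j ∈ insert r I, F i j =
      F r r + 2 * ∑ j ∈ I, F r j + ∑ i ∈ I, ∑ j ∈ I, F i j := by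
  rw [Finset.sum_insert hr, Finset.sum_insert hr]
  have : ∀ i, ∑ j ∈ insert r I, F i j = F r i + ∑ j ∈ I, F i j := fun i => by
    rw [Finset.sum_insert hr, hs]
  simp only [this]
  rw [Finset.sum_add_distrib]
  ring

theorem WW_symm (i j : V) : WW ρ θ i j = WW ρ θ j i := by
  rw [WW_eq ρ θ i j 0, WW_eq ρ θ j i 0]; ring

theorem Gam_symm (L R : Finset V) (i j : V) (t : ℝ) : Gam ρ θ L R i j t = Gam ρ θ L R j i t := by
  unfold Gam; ring

/-- Decomposition of the sum of `Gam`. -/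
theorem sum_Gam (L R I : Finset V) (t : ℝ) :
    ∑ i ∈ I, ∑ j ∈ I, κ i j * Gam ρ θ L R i j t =
      S1 ρ θ L t / (S1 ρ θ L t + S1 ρ θ R t) *
        (∑ i ∈ I, ∑ j ∈ I, κ i j * (cc ρ θ i t ^ 2 * cc ρ θ j t ^ 2)) +
      S2 ρ θ L t / (S2 ρ θ L t + S2 ρ θ R t) *
        (∑ i ∈ I, ∑ j ∈ I, κ i j *
          (2 * (cc ρ θ i t * ss ρ θ i t) * (cc ρ θ j t * ss ρ θ j t))) +
      S3 ρ θ L t / (S3 ρ θ L t + S3 ρ θ R t) *
        (∑ i ∈ I, ∑ j ∈ I, κ i j * (ss ρ θ i t ^ 2 * ss ρ θ j t ^ 2)) := by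
  rw [Finset.mul_sum, Finset.mul_sum, Finset.mul_sum, ← Finset.sum_add_distrib,
    ← Finset.sum_add_distrib]
  refine Finset.sum_congr rfl fun i _ => ?_
  rw [Finset.mul_sum, Finset.mul_sum, Finset.mul_sum, ← Finset.sum_add_distrib,
    ← Finset.sum_add_distrib]
  refine Finset.sum_congr rfl fun j _ => ?_
  unfold Gam; ring

theorem sum_Gam_row (L R I : Finset V) (i : V) (t : ℝ) :
    ∑ j ∈ I, κ i j * Gam ρ θ L R i j t =
      S1 ρ θ L t / (S1 ρ θ L t + S1 ρ θ R t) * cc ρ θ i t ^ 2 *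
        (∑ j ∈ I, κ i j * cc ρ θ j t ^ 2) +
      S2 ρ θ L t / (S2 ρ θ L t + S2 ρ θ R t) * (2 * (cc ρ θ i t * ss ρ θ i t)) *
        (∑ j ∈ I, κ i j * (cc ρ θ j t * ss ρ θ j t)) +
      S3 ρ θ L t / (S3 ρ θ L t + S3 ρ θ R t) * ss ρ θ i t ^ 2 *
        (∑ j ∈ I, κ i j * ss ρ θ j t ^ 2) := by
  rw [Finset.mul_sum, Finset.mul_sum, Finset.mul_sum, ← Finset.sum_add_distrib,
    ← Finset.sum_add_distrib]
  refine Finset.sum_congr rfl fun j _ => ?_
  unfold Gam; ring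

/-- A vertex `r` of `R` enters the window. -/
theorem Phi_enter (hκs : ∀ i j, κ i j = κ j i) (hκd : ∀ i, κ i i = k0)
    (hMS : ∀ (S : Finset V) (h : V → ℝ), (∀ i ∈ S, 0 ≤ h i) →
      0 ≤ ∑ i ∈ S, ∑ j ∈ S, κ i j * (h i * h j))
    {L I R : Finset V} {t : ℝ} {r : V} (hr : r ∈ R) (hrI : r ∉ I)
    (hc : cc ρ θ r t = 0) (hP : 0 < S3 ρ θ L t) :
    Phi ρ θ κ k0 L (insert r I) (R.erase r) t ≤ Phi ρ θ κ k0 L I R t := by
  set R' := R.erase r with hR'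
  have hrR' : r ∉ R' := Finset.notMem_erase r R
  have hRR : R = insert r R' := (Finset.insert_erase hr).symm
  have hun : insert r I ∪ R' = I ∪ R := by
    rw [hRR, Finset.union_insert, Finset.insert_union]
  have s1 : S1 ρ θ R t = S1 ρ θ R' t := by
    unfold S1; rw [hRR, Finset.sum_insert hrR', hc]; ring
  have s2 : S2 ρ θ R t = S2 ρ θ R' t := by
    unfold S2; rw [hRR, Finset.sum_insert hrR', hc]; ring
  have s3 : S3 ρ θ R t = S3 ρ θ R' t + ss ρ θ r t ^ 2 := by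
    unfold S3; rw [hRR, Finset.sum_insert hrR']; ring
  have g0 : 0 ≤ S3 ρ θ R' t := Finset.sum_nonneg fun i _ => sq_nonneg _
  have hW : ∑ l ∈ L, ∑ j ∈ R, WW ρ θ l j =
      S3 ρ θ L t * ss ρ θ r t ^ 2 + ∑ l ∈ L, ∑ j ∈ R', WW ρ θ l j := by
    have : ∀ l, ∑ j ∈ R, WW ρ θ l j = ss ρ θ l t ^ 2 * ss ρ θ r t ^ 2 + ∑ j ∈ R', WW ρ θ l j := by
      intro l
      rw [hRR, Finset.sum_insert hrR', WW_eq ρ θ l r t, hc]; ring
    simp only [this]
    rw [Finset.sum_add_distrib, ← Finset.sum_mul]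
    rfl
  have key := hMS (insert r I) (fun i => if i = r then S3 ρ θ L t + S3 ρ θ R' t + ss ρ θ r t ^ 2
    else ss ρ θ i t ^ 2) (by
      intro i _
      by_cases hi : i = r
      · simp only [hi, if_true]; positivity
      · simp only [hi, if_false]; positivity)
  rw [sum_sq_insert (fun i j => by rw [hκs]; ring) hrI] at key
  have e1 : ∑ j ∈ I, κ r j * ((if r = r then S3 ρ θ L t + S3 ρ θ R' t + ss ρ θ r t ^ 2
      else ss ρ θ r t ^ 2) * (if j = r then S3 ρ θ L t + S3 ρ θ R' t + ss ρ θ r t ^ 2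
      else ss ρ θ j t ^ 2)) =
      (S3 ρ θ L t + S3 ρ θ R' t + ss ρ θ r t ^ 2) * ∑ j ∈ I, κ r j * ss ρ θ j t ^ 2 := by
    rw [Finset.mul_sum]
    refine Finset.sum_congr rfl fun j hj => ?_
    have : j ≠ r := fun h => hrI (h ▸ hj)
    simp only [this, if_true, if_false]; ring
  have e2 : ∑ i ∈ I, ∑ j ∈ I, κ i j * ((if i = r then S3 ρ θ L t + S3 ρ θ R' t + ss ρ θ r t ^ 2
      else ss ρ θ i t ^ 2) * (if j = r then S3 ρ θ L t + S3 ρ θ R' t + ss ρ θ r t ^ 2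
      else ss ρ θ j t ^ 2)) =
      ∑ i ∈ I, ∑ j ∈ I, κ i j * (ss ρ θ i t ^ 2 * ss ρ θ j t ^ 2) := by
    refine Finset.sum_congr rfl fun i hi => Finset.sum_congr rfl fun j hj => ?_
    have h1 : i ≠ r := fun h => hrI (h ▸ hi)
    have h2 : j ≠ r := fun h => hrI (h ▸ hj)
    simp only [h1, h2, if_false]
  rw [e1, e2, hκd] at key
  simp only [if_true] at key
  unfold Phi
  rw [hun, hW, sum_sq_insert (F := fun i j => κ i j * Gam ρ θ L R' i j t)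
    (fun i j => by rw [hκs, Gam_symm]) hrI, sum_Gam_row, sum_Gam L R, sum_Gam L R', s1, s2, s3, hκd]
  have eG : Gam ρ θ L R' r r t =
      S3 ρ θ L t / (S3 ρ θ L t + S3 ρ θ R' t) * (ss ρ θ r t ^ 2 * ss ρ θ r t ^ 2) := by
    unfold Gam; rw [hc]; ring
  rw [eG, hc]
  generalize (∑ i ∈ I, ∑ j ∈ I, κ i j * (ss ρ θ i t ^ 2 * ss ρ θ j t ^ 2)) = T at *
  generalize (∑ j ∈ I, κ r j * ss ρ θ j t ^ 2) = C at *
  generalize (∑ i ∈ I ∪ R, ∑ j ∈ I ∪ R, κ i j * WW ρ θ i j) = E0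
  generalize (∑ l ∈ L, ∑ j ∈ R', WW ρ θ l j) = E1
  generalize (∑ i ∈ I, ∑ j ∈ I, κ i j * (cc ρ θ i t ^ 2 * cc ρ θ j t ^ 2)) = E2
  generalize (∑ i ∈ I, ∑ j ∈ I, κ i j *
          (2 * (cc ρ θ i t * ss ρ θ i t) * (cc ρ θ j t * ss ρ θ j t))) = E3
  generalize (∑ j ∈ I, κ r j * cc ρ θ j t ^ 2) = E4
  generalize (∑ j ∈ I, κ r j * (cc ρ θ j t * ss ρ θ j t)) = E5
  generalize S1 ρ θ L t / (S1 ρ θ L t + S1 ρ θ R' t) = G1
  generalize S2 ρ θ L t / (S2 ρ θ L t + S2 ρ θ R' t) = G2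
  have hm : 0 ≤ ss ρ θ r t ^ 2 := sq_nonneg _
  generalize ss ρ θ r t ^ 2 = m at *
  generalize S3 ρ θ L t = P at *
  generalize S3 ρ θ R' t = g at *
  have hPg : 0 < P + g := by linarith
  have hPgm : 0 < P + g + m := by linarith
  have hPgm' : 0 < P + (g + m) := by linarith
  have hlam : 0 ≤ P * m / ((P + g) * (P + g + m)) := by positivity
  have key2 := mul_nonneg hlam key
  have id : P * m / ((P + g) * (P + g + m)) * (k0 * ((P + g + m) * (P + g + m)) +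
      2 * ((P + g + m) * C) + T) =
      (P / (P + g) - P / (P + (g + m))) * T + 2 * (P / (P + g) * m * C) +
        k0 * (P / (P + g) * (m * m)) + k0 * (P * m) := by
    field_simp
    ring
  rw [id] at key2
  have : (0 : ℝ) ^ 2 = 0 := by norm_num
  rw [this]
  linarith

/-- A vertex `l` of the window leaves. -/
theorem Phi_leave (hκs : ∀ i j, κ i j = κ j i) (hκd : ∀ i, κ i i = k0)
    (hMS : ∀ (S : Finset V) (h : V → ℝ), (∀ i ∈ S, 0 ≤ h i) →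
      0 ≤ ∑ i ∈ S, ∑ j ∈ S, κ i j * (h i * h j))
    {L I R : Finset V} {t : ℝ} {l : V} (hl : l ∈ I) (hlL : l ∉ L) (hlR : l ∉ R)
    (hIR : Disjoint I R)
    (hκo : ∀ r ∈ R, κ l r = k0)
    (hs : ss ρ θ l t = 0) (hP : 0 < S1 ρ θ L t + S1 ρ θ R t) :
    Phi ρ θ κ k0 (insert l L) (I.erase l) R t ≤ Phi ρ θ κ k0 L I R t := by
  set I' := I.erase l with hI'
  have hlI' : l ∉ I' := Finset.notMem_erase l I
  have hII : I = insert l I' := (Finset.insert_erase hl).symm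
  have hlU : l ∉ I' ∪ R := by
    rw [Finset.mem_union]; push Not; exact ⟨hlI', hlR⟩
  have hun : I ∪ R = insert l (I' ∪ R) := by
    rw [hII, Finset.insert_union]
  have hI'R : Disjoint I' R := hIR.mono_left (Finset.erase_subset _ _)
  have s1 : S1 ρ θ (insert l L) t = S1 ρ θ L t + cc ρ θ l t ^ 2 := by
    unfold S1; rw [Finset.sum_insert hlL]; ring
  have s2 : S2 ρ θ (insert l L) t = S2 ρ θ L t := by
    unfold S2; rw [Finset.sum_insert hlL, hs]; ring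
  have s3 : S3 ρ θ (insert l L) t = S3 ρ θ L t := by
    unfold S3; rw [Finset.sum_insert hlL, hs]; ring
  have g0 : 0 ≤ S1 ρ θ L t := Finset.sum_nonneg fun i _ => sq_nonneg _
  have g1 : 0 ≤ S1 ρ θ R t := Finset.sum_nonneg fun i _ => sq_nonneg _
  have hWr : ∀ j, WW ρ θ l j = cc ρ θ l t ^ 2 * cc ρ θ j t ^ 2 := fun j => by
    rw [WW_eq ρ θ l j t, hs]; ring
  have hW : ∑ i ∈ insert l L, ∑ j ∈ R, WW ρ θ i j =
      cc ρ θ l t ^ 2 * S1 ρ θ R t + ∑ i ∈ L, ∑ j ∈ R, WW ρ θ i j := by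
    rw [Finset.sum_insert hlL]
    simp only [hWr]
    rw [← Finset.mul_sum]
    rfl
  have hW2 : ∑ j ∈ I' ∪ R, κ l j * WW ρ θ l j =
      cc ρ θ l t ^ 2 * (∑ j ∈ I', κ l j * cc ρ θ j t ^ 2) + k0 * (cc ρ θ l t ^ 2 * S1 ρ θ R t) := by
    rw [Finset.sum_union hI'R]
    congr 1
    · rw [Finset.mul_sum]
      exact Finset.sum_congr rfl fun j _ => by rw [hWr]; ring
    · unfold S1
      rw [Finset.mul_sum, Finset.mul_sum]
      exact Finset.sum_congr rfl fun j hj => by rw [hWr, hκo j hj]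
  have key := hMS (insert l I') (fun i => if i = l then S1 ρ θ L t + cc ρ θ l t ^ 2 + S1 ρ θ R t
    else cc ρ θ i t ^ 2) (by
      intro i _
      by_cases hi : i = l
      · simp only [hi, if_true]; positivity
      · simp only [hi, if_false]; positivity)
  rw [sum_sq_insert (fun i j => by rw [hκs]; ring) hlI'] at key
  have e1 : ∑ j ∈ I', κ l j * ((if l = l then S1 ρ θ L t + cc ρ θ l t ^ 2 + S1 ρ θ R t
      else cc ρ θ l t ^ 2) * (if j = l then S1 ρ θ L t + cc ρ θ l t ^ 2 + S1 ρ θ R t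
      else cc ρ θ j t ^ 2)) =
      (S1 ρ θ L t + cc ρ θ l t ^ 2 + S1 ρ θ R t) * ∑ j ∈ I', κ l j * cc ρ θ j t ^ 2 := by
    rw [Finset.mul_sum]
    refine Finset.sum_congr rfl fun j hj => ?_
    have : j ≠ l := fun h => hlI' (h ▸ hj)
    simp only [this, if_true, if_false]; ring
  have e2 : ∑ i ∈ I', ∑ j ∈ I', κ i j * ((if i = l then S1 ρ θ L t + cc ρ θ l t ^ 2 + S1 ρ θ R t
      else cc ρ θ i t ^ 2) * (if j = l then S1 ρ θ L t + cc ρ θ l t ^ 2 + S1 ρ θ R t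
      else cc ρ θ j t ^ 2)) =
      ∑ i ∈ I', ∑ j ∈ I', κ i j * (cc ρ θ i t ^ 2 * cc ρ θ j t ^ 2) := by
    refine Finset.sum_congr rfl fun i hi => Finset.sum_congr rfl fun j hj => ?_
    have h1 : i ≠ l := fun h => hlI' (h ▸ hi)
    have h2 : j ≠ l := fun h => hlI' (h ▸ hj)
    simp only [h1, h2, if_false]
  rw [e1, e2, hκd] at key
  simp only [if_true] at key
  have hG : ∑ i ∈ I, ∑ j ∈ I, κ i j * Gam ρ θ L R i j t =
      κ l l * Gam ρ θ L R l l t + 2 * ∑ j ∈ I', κ l j * Gam ρ θ L R l j t +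
        ∑ i ∈ I', ∑ j ∈ I', κ i j * Gam ρ θ L R i j t := by
    rw [hII]
    exact sum_sq_insert (F := fun i j => κ i j * Gam ρ θ L R i j t)
      (fun i j => by rw [hκs, Gam_symm]) hlI'
  unfold Phi
  rw [hun, sum_sq_insert (F := fun i j => κ i j * WW ρ θ i j)
    (fun i j => by rw [hκs, WW_symm]) hlU, hW, hW2, hG, sum_Gam_row, sum_Gam L R,
    sum_Gam (insert l L) R, s1, s2, s3, hκd, hWr l]
  have eG : Gam ρ θ L R l l t =
      S1 ρ θ L t / (S1 ρ θ L t + S1 ρ θ R t) * (cc ρ θ l t ^ 2 * cc ρ θ l t ^ 2) := by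
    unfold Gam; rw [hs]; ring
  rw [eG, hs]
  generalize (∑ i ∈ I', ∑ j ∈ I', κ i j * (cc ρ θ i t ^ 2 * cc ρ θ j t ^ 2)) = T at *
  generalize (∑ j ∈ I', κ l j * cc ρ θ j t ^ 2) = C at *
  generalize (∑ i ∈ I' ∪ R, ∑ j ∈ I' ∪ R, κ i j * WW ρ θ i j) = E0
  generalize (∑ i ∈ L, ∑ j ∈ R, WW ρ θ i j) = E1
  generalize (∑ i ∈ I', ∑ j ∈ I', κ i j * (ss ρ θ i t ^ 2 * ss ρ θ j t ^ 2)) = E2
  generalize (∑ i ∈ I', ∑ j ∈ I', κ i j *
          (2 * (cc ρ θ i t * ss ρ θ i t) * (cc ρ θ j t * ss ρ θ j t))) = E3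
  generalize (∑ j ∈ I', κ l j * ss ρ θ j t ^ 2) = E4
  generalize (∑ j ∈ I', κ l j * (cc ρ θ j t * ss ρ θ j t)) = E5
  generalize S3 ρ θ L t / (S3 ρ θ L t + S3 ρ θ R t) = G1
  generalize S2 ρ θ L t / (S2 ρ θ L t + S2 ρ θ R t) = G2
  have hm : 0 ≤ cc ρ θ l t ^ 2 := sq_nonneg _
  generalize cc ρ θ l t ^ 2 = m at *
  generalize S1 ρ θ L t = a at *
  generalize S1 ρ θ R t = q at *
  have haq : 0 < a + m + q := by linarith
  have hlam : 0 ≤ m * q / ((a + q) * (a + m + q)) := by positivity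
  have key2 := mul_nonneg hlam key
  have id : m * q / ((a + q) * (a + m + q)) * (k0 * ((a + m + q) * (a + m + q)) +
      2 * ((a + m + q) * C) + T) =
      ((a + m) / (a + m + q) - a / (a + q)) * T + 2 * m * (1 - a / (a + q)) * C +
        k0 * (m * m * (1 - a / (a + q)) + m * q) := by
    field_simp
    ring
  rw [id] at key2
  have : (0 : ℝ) ^ 2 = 0 := by norm_num
  rw [this]
  linarith

/-- When `R` is empty the remaining total is zero. -/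
theorem Phi_end {L I : Finset V} {t : ℝ} (h1 : 0 < S1 ρ θ L t) (h2 : 0 < S2 ρ θ L t)
    (h3 : 0 < S3 ρ θ L t) : Phi ρ θ κ k0 L I ∅ t = 0 := by
  unfold Phi
  have e : ∀ i j, Gam ρ θ L ∅ i j t = WW ρ θ i j := by
    intro i j
    have a1 : S1 ρ θ L t + S1 ρ θ ∅ t = S1 ρ θ L t := by simp [S1]
    have a2 : S2 ρ θ L t + S2 ρ θ ∅ t = S2 ρ θ L t := by simp [S2]
    have a3 : S3 ρ θ L t + S3 ρ θ ∅ t = S3 ρ θ L t := by simp [S3]
    unfold Gam
    rw [a1, a2, a3, div_self h1.ne', div_self h2.ne', div_self h3.ne', WW_eq ρ θ i j t]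
    ring
  simp [e]

end Pool.Agent.Work.MP_f90287_co
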