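import Mathlib

/-!
# Reductions for the weighted Turán inequality for planar vectors

`Dom v`: there are finitely many nonnegative functions `f k` such that `∑ k, f k i * f k j` is at
least `⟨v i, v j⟩ ^ 2` for all pairs with nonnegative inner product, and whose total sum is at most
`∑ i j, ⟨v i, v j⟩ ^ 2`.  This implies the inequality, by Motzkin–Straus.
-/

set_option autoImplicit false

namespace Pool.Agent.Work.MP_f90287_co

open Finset

/-- Weighted Turán inequality (Motzkin–Straus), on a finite set, complementary form. -/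
theorem motzkin {V : Type} [DecidableEq V] (S : V → V → Prop) [DecidableRel S]
    (hsymm : ∀ u v, S u v → S v u) (hrefl : ∀ v, S v v) (ρ : V → ℝ) (hρ : ∀ v, 0 ≤ ρ v) :
    ∀ (K : ℕ) (C : Finset V),
      (∀ s ⊆ C, (∀ u ∈ s, ∀ v ∈ s, u ≠ v → ¬ S u v) → s.card ≤ K) →
      (∑ v ∈ C, ρ v) ^ 2 ≤ K * ∑ v ∈ C, ∑ u ∈ C with S v u, ρ v * ρ u := by
  intro K
  induction K with
  | zero =>
    intro C hC
    have : C = ∅ := by
      by_contra hne
      obtain ⟨v, hv⟩ := Finset.nonempty_iff_ne_empty.2 hne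
      have := hC {v} (by simpa using hv) (by
        intro a ha b hb hab
        rw [Finset.mem_singleton] at ha hb
        exact absurd (ha.trans hb.symm) hab)
      simp at this
    subst this
    simp
  | succ K ih =>
    intro C hC
    rcases C.eq_empty_or_nonempty with rfl | hne
    · simp
    let d : V → ℝ := fun v => ∑ u ∈ C with S v u, ρ u
    obtain ⟨v, hv, hvmin⟩ := C.exists_min_image d hne
    let N := C.filter (fun u => S v u)
    let C' := C.filter (fun u => ¬ S v u)
    have hC' : ∀ s ⊆ C', (∀ u ∈ s, ∀ v ∈ s, u ≠ v → ¬ S u v) → s.card ≤ K := by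
      intro s hs hind
      have hvs : v ∉ s := fun h => (Finset.mem_filter.1 (hs h)).2 (hrefl v)
      have := hC (insert v s) ?_ ?_
      · rw [Finset.card_insert_of_notMem hvs] at this
        omega
      · intro x hx
        rcases Finset.mem_insert.1 hx with e | hx
        · exact e ▸ hv
        · exact (Finset.mem_filter.1 (hs hx)).1
      · intro a ha b hb hab
        rcases Finset.mem_insert.1 ha with e | ha
        · rcases Finset.mem_insert.1 hb with e' | hb
          · exact absurd (e.trans e'.symm) hab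
          · rw [e]; exact (Finset.mem_filter.1 (hs hb)).2
        · rcases Finset.mem_insert.1 hb with e' | hb
          · rw [e']; exact fun h => (Finset.mem_filter.1 (hs ha)).2 (hsymm _ _ h)
          · exact hind a ha b hb hab
    have ih' := ih C' hC'
    set Q := ∑ v ∈ C, ∑ u ∈ C with S v u, ρ v * ρ u with hQ
    set Q' := ∑ v ∈ C', ∑ u ∈ C' with S v u, ρ v * ρ u with hQ'
    have hsplit : ∑ u ∈ C, ρ u = d v + ∑ u ∈ C', ρ u := by
      rw [← Finset.sum_filter_add_sum_filter_not C (fun u => S v u)]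
    have hQQ : d v * d v + Q' ≤ Q := by
      have e1 : Q = ∑ u ∈ N, ρ u * d u + ∑ u ∈ C', ρ u * d u := by
        rw [hQ, ← Finset.sum_filter_add_sum_filter_not C (fun u => S v u)]
        simp only [← Finset.mul_sum]
        rfl
      rw [e1]
      apply add_le_add
      · have : d v * d v = ∑ u ∈ N, ρ u * d v := by
          rw [← Finset.sum_mul]
        rw [this]
        exact Finset.sum_le_sum (fun u hu =>
          mul_le_mul_of_nonneg_left (hvmin u (Finset.mem_filter.1 hu).1) (hρ u))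
      · rw [hQ']
        apply Finset.sum_le_sum
        intro u _
        rw [← Finset.mul_sum]
        apply mul_le_mul_of_nonneg_left _ (hρ u)
        apply Finset.sum_le_sum_of_subset_of_nonneg
        · intro x hx
          exact Finset.mem_filter.2 ⟨(Finset.mem_filter.1 (Finset.mem_filter.1 hx).1).1,
            (Finset.mem_filter.1 hx).2⟩
        · intro x _ _
          exact hρ x
    have hQ'0 : 0 ≤ Q' := Finset.sum_nonneg (fun u _ => Finset.sum_nonneg (fun w _ =>
      mul_nonneg (hρ u) (hρ w)))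
    rw [hsplit]
    push_cast
    set x := d v
    set y := ∑ u ∈ C', ρ u
    have hK : (0 : ℝ) ≤ K := Nat.cast_nonneg K
    have h1 : 2 * x * y ≤ K * x ^ 2 + Q' := by
      rcases eq_or_lt_of_le hK with e | hpos
      · rw [← e] at ih' ⊢
        have hy : y ^ 2 ≤ 0 := by simpa using ih'
        have hy0 : y = 0 := by nlinarith
        rw [hy0]
        simpa using hQ'0
      · by_contra hcon
        push Not at hcon
        nlinarith [sq_nonneg (K * x - y)]
    calc (x + y) ^ 2 = x ^ 2 + 2 * x * y + y ^ 2 := by ring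
      _ ≤ x ^ 2 + (K * x ^ 2 + Q') + K * Q' := by linarith
      _ = (K + 1) * (x * x + Q') := by ring
      _ ≤ (K + 1) * Q := by
        apply mul_le_mul_of_nonneg_left hQQ
        linarith

/-- Motzkin–Straus. -/
theorem motzkin_straus {V : Type} [Fintype V] (G : SimpleGraph V) [DecidableRel G.Adj] {r : ℕ}
    (hr : 1 ≤ r) (hG : G.CliqueFree (r + 1)) (f : V → ℝ) (hf : ∀ i, 0 ≤ f i) :
    ∑ i, ∑ j, (if G.Adj i j then f i * f j else 0) ≤ (1 - 1 / (r : ℝ)) * (∑ i, f i) ^ 2 := by
  classical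
  have h := motzkin (fun u v => ¬ G.Adj u v) (fun u v h h' => h h'.symm) (fun v => G.irrefl) f hf
    r Finset.univ (by
      intro s _ hs
      by_contra hc
      push Not at hc
      obtain ⟨t, hts, htc⟩ := Finset.exists_subset_card_eq (show r + 1 ≤ s.card by omega)
      refine hG t ⟨?_, htc⟩
      intro a ha b hb hab
      exact not_not.1 (hs a (hts ha) b (hts hb) hab))
  have e : ∑ v, ∑ u with ¬ G.Adj v u, f v * f u =
      (∑ i, f i) ^ 2 - ∑ i, ∑ j, (if G.Adj i j then f i * f j else 0) := by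
    rw [sq, Finset.sum_mul_sum, ← Finset.sum_sub_distrib]
    refine Finset.sum_congr rfl fun i _ => ?_
    rw [← Finset.sum_sub_distrib, Finset.sum_filter]
    refine Finset.sum_congr rfl fun j _ => ?_
    by_cases hij : G.Adj i j <;> simp [hij]
  rw [e] at h
  have hr' : (0 : ℝ) < r := by exact_mod_cast (by omega : 0 < r)
  have h2 : (1 - 1 / (r : ℝ)) * (∑ i, f i) ^ 2 - ∑ i, ∑ j, (if G.Adj i j then f i * f j else 0) =
      (r * ((∑ i, f i) ^ 2 - ∑ i, ∑ j, (if G.Adj i j then f i * f j else 0)) -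
        (∑ i, f i) ^ 2) / r := by
    field_simp
    ring
  have h3 : 0 ≤ (r * ((∑ i, f i) ^ 2 - ∑ i, ∑ j, (if G.Adj i j then f i * f j else 0)) -
        (∑ i, f i) ^ 2) / r := by
    apply div_nonneg _ hr'.le
    linarith
  linarith

/-- The inner product. -/
def ip (p q : ℝ × ℝ) : ℝ := p.1 * q.1 + p.2 * q.2

theorem ip_comm (p q : ℝ × ℝ) : ip p q = ip q p := by unfold ip; ring

/-- A completely positive matrix that dominates the acute pairs and has the right sum. -/
def Dom {V : Type} [Fintype V] (v : V → ℝ × ℝ) : Prop :=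
  ∃ (κ : Type) (_ : Fintype κ) (f : κ → V → ℝ), (∀ k i, 0 ≤ f k i) ∧
    (∀ i j, i ≠ j → 0 ≤ ip (v i) (v j) → ip (v i) (v j) ^ 2 ≤ ∑ k, f k i * f k j) ∧
    ∑ k, (∑ i, f k i) ^ 2 ≤ ∑ i, ∑ j, ip (v i) (v j) ^ 2

/-- The inequality for the graph `G`. -/
def Bnd {V : Type} [Fintype V] (G : SimpleGraph V) [DecidableRel G.Adj] (r : ℕ)
    (v : V → ℝ × ℝ) : Prop :=
  (∑ i, ∑ j, if G.Adj i j then ip (v i) (v j) ^ 2 else 0) ≤
      (1 - 1 / (r : ℝ)) * ∑ i, ∑ j, ip (v i) (v j) ^ 2

theorem coef_nonneg {r : ℕ} (hr : 1 ≤ r) : 0 ≤ 1 - 1 / (r : ℝ) := by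
  have hr1 : (1 : ℝ) ≤ r := by exact_mod_cast hr
  have : 1 / (r : ℝ) ≤ 1 := by rw [div_le_one (by linarith)]; exact hr1
  linarith

/-- The bound, from `Dom`. -/
theorem Dom.bound {V : Type} [Fintype V] {v : V → ℝ × ℝ} (h : Dom v) (G : SimpleGraph V)
    [DecidableRel G.Adj] {r : ℕ} (hr : 1 ≤ r) (hG : G.CliqueFree (r + 1))
    (hv : ∀ i j, G.Adj i j → 0 ≤ ip (v i) (v j)) : Bnd G r v := by
  obtain ⟨κ, _, f, h1, h2, h3⟩ := h
  have hc := coef_nonneg hr
  calc (∑ i, ∑ j, if G.Adj i j then ip (v i) (v j) ^ 2 else 0)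
      ≤ ∑ i, ∑ j, ∑ k, if G.Adj i j then f k i * f k j else 0 := by
        refine Finset.sum_le_sum fun i _ => Finset.sum_le_sum fun j _ => ?_
        by_cases hij : G.Adj i j
        · simp only [hij, if_true]
          exact h2 i j hij.ne (hv i j hij)
        · simp [hij]
    _ = ∑ k, ∑ i, ∑ j, if G.Adj i j then f k i * f k j else 0 := by
        rw [show (∑ i, ∑ j, ∑ k, if G.Adj i j then f k i * f k j else 0) =
          ∑ i, ∑ k, ∑ j, if G.Adj i j then f k i * f k j else 0 from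
          Finset.sum_congr rfl fun i _ => Finset.sum_comm]
        rw [Finset.sum_comm]
    _ ≤ ∑ k, (1 - 1 / (r : ℝ)) * (∑ i, f k i) ^ 2 :=
        Finset.sum_le_sum fun k _ => motzkin_straus G hr hG (f k) (h1 k)
    _ = (1 - 1 / (r : ℝ)) * ∑ k, (∑ i, f k i) ^ 2 := by rw [Finset.mul_sum]
    _ ≤ _ := mul_le_mul_of_nonneg_left h3 hc

/-- The statement on completely positive certificates: vectors in the open right half plane. -/
def CPConj : Prop := ∀ (ι : Type) [Fintype ι] (v : ι → ℝ × ℝ), (∀ i, 0 < (v i).1) → Dom v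

theorem sum_ip_sq {V : Type} [Fintype V] (p : V → ℝ × ℝ) :
    ∑ i, ∑ j, ip (p i) (p j) ^ 2 = (∑ i, (p i).1 ^ 2) ^ 2 + (∑ i, (p i).2 ^ 2) ^ 2 +
      2 * (∑ i, (p i).1 * (p i).2) ^ 2 := by
  rw [sq (∑ i, (p i).1 ^ 2), sq (∑ i, (p i).2 ^ 2), sq (∑ i, (p i).1 * (p i).2),
    Finset.sum_mul_sum, Finset.sum_mul_sum, Finset.sum_mul_sum, Finset.mul_sum,
    ← Finset.sum_add_distrib, ← Finset.sum_add_distrib]
  refine Finset.sum_congr rfl fun i _ => ?_
  rw [Finset.mul_sum, ← Finset.sum_add_distrib, ← Finset.sum_add_distrib]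
  refine Finset.sum_congr rfl fun j _ => ?_
  unfold ip
  ring

/-- The inequality for vectors in the closed right half plane, by a limit. -/
theorem bnd_closed (hCP : CPConj) {V : Type} [Fintype V] (G : SimpleGraph V)
    [DecidableRel G.Adj] {r : ℕ} (hr : 1 ≤ r) (hG : G.CliqueFree (r + 1)) (v : V → ℝ × ℝ)
    (hpos : ∀ i, 0 ≤ (v i).1) (hv : ∀ i j, G.Adj i j → 0 ≤ ip (v i) (v j)) : Bnd G r v := by
  let u : ℝ → V → ℝ × ℝ := fun ε i => ((v i).1 + ε, (v i).2)
  have hu : ∀ ε > 0, Bnd G r (u ε) := by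
    intro ε hε
    refine (hCP V (u ε) fun i => ?_).bound G hr hG fun i j hij => ?_
    · have := hpos i
      simp only [u]; linarith
    · have h1 := hv i j hij
      have h2 := hpos i
      have h3 := hpos j
      unfold ip at h1 ⊢
      simp only [u]
      nlinarith [mul_nonneg h2 hε.le, mul_nonneg h3 hε.le, mul_pos hε hε]
  have hcont : ∀ i j, Continuous fun ε => ip (u ε i) (u ε j) ^ 2 := by
    intro i j
    unfold ip
    simp only [u]
    fun_prop
  have c1 : Continuous fun ε => ∑ i, ∑ j, if G.Adj i j then ip (u ε i) (u ε j) ^ 2 else 0 := by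
    refine continuous_finsetSum _ fun i _ => continuous_finsetSum _ fun j _ => ?_
    by_cases hij : G.Adj i j
    · simp only [hij, if_true]; exact hcont i j
    · simp only [hij, if_false]; exact continuous_const
  have c2 : Continuous fun ε => (1 - 1 / (r : ℝ)) * ∑ i, ∑ j, ip (u ε i) (u ε j) ^ 2 := by
    refine continuous_const.mul ?_
    exact continuous_finsetSum _ fun i _ => continuous_finsetSum _ fun j _ => hcont i j
  have h0 : u 0 = v := by
    funext i
    simp [u]
  have := le_of_tendsto_of_tendsto (b := nhdsWithin (0 : ℝ) (Set.Ioi 0))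
    ((c1.tendsto 0).mono_left nhdsWithin_le_nhds) ((c2.tendsto 0).mono_left nhdsWithin_le_nhds)
    (eventually_nhdsWithin_of_forall fun ε hε => hu ε hε)
  rw [h0] at this
  exact this

/-- The half-plane reduction. -/
theorem bnd_all (hCP : CPConj) {V : Type} [Fintype V] (G : SimpleGraph V)
    [DecidableRel G.Adj] {r : ℕ} (hr : 1 ≤ r) (hG : G.CliqueFree (r + 1)) (v : V → ℝ × ℝ)
    (hv : ∀ i j, G.Adj i j → 0 ≤ ip (v i) (v j)) : Bnd G r v := by
  let X : ℝ → V → ℝ := fun θ i => (v i).1 * Real.cos θ + (v i).2 * Real.sin θ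
  let Y : ℝ → V → ℝ := fun θ i => -(v i).1 * Real.sin θ + (v i).2 * Real.cos θ
  let g : ℝ → ℝ := fun θ => ∑ i, |X θ i| * Y θ i
  have hg : Continuous g := by
    simp only [g, X, Y]
    fun_prop
  have hπ : g Real.pi = -g 0 := by
    simp only [g, X, Y, Real.cos_pi, Real.sin_pi, Real.cos_zero, Real.sin_zero]
    rw [← Finset.sum_neg_distrib]
    refine Finset.sum_congr rfl fun i _ => ?_
    simp
  obtain ⟨θ, hθ⟩ : ∃ θ, g θ = 0 := by
    rcases le_total 0 (g 0) with h0 | h0
    · obtain ⟨θ, _, hθ⟩ := intermediate_value_Icc' (f := g) Real.pi_pos.le hg.continuousOn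
        (show (0 : ℝ) ∈ Set.Icc (g Real.pi) (g 0) from ⟨by rw [hπ]; linarith, h0⟩)
      exact ⟨θ, hθ⟩
    · obtain ⟨θ, _, hθ⟩ := intermediate_value_Icc (f := g) Real.pi_pos.le hg.continuousOn
        (show (0 : ℝ) ∈ Set.Icc (g 0) (g Real.pi) from ⟨h0, by rw [hπ]; linarith⟩)
      exact ⟨θ, hθ⟩
  have hcs := Real.cos_sq_add_sin_sq θ
  have hip : ∀ i j, ip (v i) (v j) = X θ i * X θ j + Y θ i * Y θ j := by
    intro i j
    simp only [ip, X, Y]
    linear_combination (-((v i).1 * (v j).1 + (v i).2 * (v j).2)) * hcs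
  let u : V → ℝ × ℝ := fun i => (|X θ i|, Y θ i)
  have hle : ∀ i j, ip (v i) (v j) ≤ ip (u i) (u j) := by
    intro i j
    rw [hip]
    simp only [ip, u]
    have := le_abs_self (X θ i * X θ j)
    rw [abs_mul] at this
    linarith
  have hb := bnd_closed hCP G hr hG u (fun i => abs_nonneg _)
    (fun i j hij => (hv i j hij).trans (hle i j))
  have hT : ∑ i, ∑ j, ip (u i) (u j) ^ 2 ≤ ∑ i, ∑ j, ip (v i) (v j) ^ 2 := by
    let w : V → ℝ × ℝ := fun i => (X θ i, Y θ i)
    have e : ∑ i, ∑ j, ip (v i) (v j) ^ 2 = ∑ i, ∑ j, ip (w i) (w j) ^ 2 := by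
      refine Finset.sum_congr rfl fun i _ => Finset.sum_congr rfl fun j _ => ?_
      rw [hip]; rfl
    rw [e, sum_ip_sq, sum_ip_sq]
    have h1 : ∑ i, (u i).1 * (u i).2 = 0 := hθ
    rw [h1]
    simp only [u, w, sq_abs]
    nlinarith [sq_nonneg (∑ i, X θ i * Y θ i)]
  have hc := coef_nonneg hr
  calc (∑ i, ∑ j, if G.Adj i j then ip (v i) (v j) ^ 2 else 0)
      ≤ ∑ i, ∑ j, if G.Adj i j then ip (u i) (u j) ^ 2 else 0 := by
        refine Finset.sum_le_sum fun i _ => Finset.sum_le_sum fun j _ => ?_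
        by_cases hij : G.Adj i j
        · simp only [hij, if_true]
          exact pow_le_pow_left₀ (hv i j hij) (hle i j) 2
        · simp [hij]
    _ ≤ _ := hb
    _ ≤ _ := mul_le_mul_of_nonneg_left hT hc

/-- The problem, from the certificates. -/
theorem s12499_of_cp (hCP : CPConj) :
    ∃ N : ℕ, ∀ ω : ℕ, N ≤ ω →
      ∀ (V : Type) [Fintype V] (G : SimpleGraph V) [DecidableRel G.Adj],
        G.CliqueFree (ω + 1) →
        (∃ s : Finset V, G.IsNClique ω s) →
        ∀ v : V → ℝ × ℝ,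
          (∀ i j, G.Adj i j → 0 ≤ (v i).1 * (v j).1 + (v i).2 * (v j).2) →
          (∑ i, ∑ j, if G.Adj i j then ((v i).1 * (v j).1 + (v i).2 * (v j).2) ^ 2 else 0)
            ≤ (1 - 1 / (ω : ℝ)) * ∑ i, ∑ j, ((v i).1 * (v j).1 + (v i).2 * (v j).2) ^ 2 :=
  ⟨1, fun _ hω _ _ G _ hG _ v hv => bnd_all hCP G hω hG v hv⟩

end Pool.Agent.Work.MP_f90287_co
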