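import Mathlib

/-!
# The moving window between two events

`θ i` is the angle of the vertex `i`, the window at time `t` is `[t, t + π/2]`.
`L` are the vertices which have left the window, `R` those which have not yet entered, `K` those in
the window.  The form `ker` is diagonal in the moving frame; its derivative is a sum of two squares
of nonnegative functions on the window.
-/

set_option autoImplicit false

namespace Pool.Agent.Work.MP_f90287_co

open Finset Real

variable {V : Type*}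

/-- Moments of a family of vertices in the moving frame. -/
noncomputable def mA (θ μ : V → ℝ) (S : Finset V) (t : ℝ) : ℝ :=
  ∑ i ∈ S, μ i * cos (θ i - t) ^ 2

/-- Moments of a family of vertices in the moving frame (mixed moment, sign changed). -/
noncomputable def mB (θ μ : V → ℝ) (S : Finset V) (t : ℝ) : ℝ :=
  ∑ i ∈ S, μ i * (-(sin (θ i - t) * cos (θ i - t)))

/-- Moments of a family of vertices in the moving frame. -/
noncomputable def mC (θ μ : V → ℝ) (S : Finset V) (t : ℝ) : ℝ :=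
  ∑ i ∈ S, μ i * sin (θ i - t) ^ 2

theorem hasDerivAt_cos_sq (a t : ℝ) :
    HasDerivAt (fun t => cos (a - t) ^ 2) (2 * (sin (a - t) * cos (a - t))) t := by
  have h : HasDerivAt (fun t => a - t) (-1) t := by
    simpa using (hasDerivAt_id t).const_sub a
  exact ((h.cos).fun_pow 2).congr_deriv (by ring)

theorem hasDerivAt_sin_sq (a t : ℝ) :
    HasDerivAt (fun t => sin (a - t) ^ 2) (-(2 * (sin (a - t) * cos (a - t)))) t := by
  have h : HasDerivAt (fun t => a - t) (-1) t := by
    simpa using (hasDerivAt_id t).const_sub a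
  exact ((h.sin).fun_pow 2).congr_deriv (by ring)

theorem hasDerivAt_sin_cos (a t : ℝ) :
    HasDerivAt (fun t => sin (a - t) * cos (a - t)) (sin (a - t) ^ 2 - cos (a - t) ^ 2) t := by
  have h : HasDerivAt (fun t => a - t) (-1) t := by
    simpa using (hasDerivAt_id t).const_sub a
  exact ((h.sin).fun_mul (h.cos)).congr_deriv (by ring)

theorem hasDerivAt_mA (θ μ : V → ℝ) (S : Finset V) (t : ℝ) :
    HasDerivAt (mA θ μ S) (-(2 * mB θ μ S t)) t := by
  refine (HasDerivAt.fun_sum (u := S)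
    (fun i _ => (hasDerivAt_cos_sq (θ i) t).const_mul (μ i))).congr_deriv ?_
  unfold mB
  rw [Finset.mul_sum, ← Finset.sum_neg_distrib]
  exact Finset.sum_congr rfl fun i _ => by ring

theorem hasDerivAt_mB (θ μ : V → ℝ) (S : Finset V) (t : ℝ) :
    HasDerivAt (mB θ μ S) (mA θ μ S t - mC θ μ S t) t := by
  refine (HasDerivAt.fun_sum (u := S)
    (fun i _ => ((hasDerivAt_sin_cos (θ i) t).fun_neg).const_mul (μ i))).congr_deriv ?_
  unfold mA mC
  rw [← Finset.sum_sub_distrib]
  exact Finset.sum_congr rfl fun i _ => by ring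

theorem hasDerivAt_mC (θ μ : V → ℝ) (S : Finset V) (t : ℝ) :
    HasDerivAt (mC θ μ S) (2 * mB θ μ S t) t := by
  refine (HasDerivAt.fun_sum (u := S)
    (fun i _ => (hasDerivAt_sin_sq (θ i) t).const_mul (μ i))).congr_deriv ?_
  unfold mB
  rw [Finset.mul_sum]
  exact Finset.sum_congr rfl fun i _ => by ring

/-- The first weight. -/
noncomputable def gA (θ μ : V → ℝ) (L R : Finset V) (t : ℝ) : ℝ :=
  mA θ μ L t / (mA θ μ L t + mA θ μ R t)

/-- The second weight. -/
noncomputable def gB (θ μ : V → ℝ) (L R : Finset V) (t : ℝ) : ℝ :=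
  mB θ μ L t / (mB θ μ L t + mB θ μ R t)

/-- The third weight. -/
noncomputable def gC (θ μ : V → ℝ) (L R : Finset V) (t : ℝ) : ℝ :=
  mC θ μ L t / (mC θ μ L t + mC θ μ R t)

/-- The kernel, diagonal in the moving frame: on unit vectors with angles `a`, `b`. -/
noncomputable def ker (θ μ : V → ℝ) (L R : Finset V) (t a b : ℝ) : ℝ :=
  gA θ μ L R t * (cos (a - t) ^ 2 * cos (b - t) ^ 2) +
    2 * (gB θ μ L R t * (sin (a - t) * cos (a - t) * (sin (b - t) * cos (b - t)))) +
    gC θ μ L R t * (sin (a - t) ^ 2 * sin (b - t) ^ 2)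

/-- The two determinants. -/
noncomputable def dA (θ μ : V → ℝ) (L R : Finset V) (t : ℝ) : ℝ :=
  mA θ μ L t * mB θ μ R t - mB θ μ L t * mA θ μ R t

/-- The two determinants. -/
noncomputable def dB (θ μ : V → ℝ) (L R : Finset V) (t : ℝ) : ℝ :=
  mB θ μ L t * mC θ μ R t - mC θ μ L t * mB θ μ R t

theorem dA_eq (θ μ : V → ℝ) (L R : Finset V) (t : ℝ) :
    dA θ μ L R t = ∑ l ∈ L, ∑ r ∈ R,
      μ l * μ r * (cos (θ l - t) * (-cos (θ r - t)) * sin (θ r - θ l)) := by
  unfold dA mA mB
  rw [Finset.sum_mul_sum, Finset.sum_mul_sum, ← Finset.sum_sub_distrib]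
  refine Finset.sum_congr rfl fun l _ => ?_
  rw [← Finset.sum_sub_distrib]
  refine Finset.sum_congr rfl fun r _ => ?_
  have h : sin (θ r - θ l) = sin (θ r - t) * cos (θ l - t) - cos (θ r - t) * sin (θ l - t) := by
    rw [← sin_sub]; congr 1; ring
  rw [h]
  ring

theorem dB_eq (θ μ : V → ℝ) (L R : Finset V) (t : ℝ) :
    dB θ μ L R t = ∑ l ∈ L, ∑ r ∈ R,
      μ l * μ r * ((-sin (θ l - t)) * sin (θ r - t) * sin (θ r - θ l)) := by
  unfold dB mB mC
  rw [Finset.sum_mul_sum, Finset.sum_mul_sum, ← Finset.sum_sub_distrib]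
  refine Finset.sum_congr rfl fun l _ => ?_
  rw [← Finset.sum_sub_distrib]
  refine Finset.sum_congr rfl fun r _ => ?_
  have h : sin (θ r - θ l) = sin (θ r - t) * cos (θ l - t) - cos (θ r - t) * sin (θ l - t) := by
    rw [← sin_sub]; congr 1; ring
  rw [h]
  ring

/-- The derivative of the kernel is a sum of two squares. -/
theorem hasDerivAt_ker (θ μ : V → ℝ) (L R : Finset V) (t a b : ℝ)
    (hA : mA θ μ L t + mA θ μ R t ≠ 0) (hB : mB θ μ L t + mB θ μ R t ≠ 0)
    (hC : mC θ μ L t + mC θ μ R t ≠ 0) :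
    HasDerivAt (fun t => ker θ μ L R t a b)
      (2 * dA θ μ L R t *
        ((cos (a - t) ^ 2 / (mA θ μ L t + mA θ μ R t) +
          sin (a - t) * cos (a - t) / (mB θ μ L t + mB θ μ R t)) *
        (cos (b - t) ^ 2 / (mA θ μ L t + mA θ μ R t) +
          sin (b - t) * cos (b - t) / (mB θ μ L t + mB θ μ R t))) +
      2 * dB θ μ L R t *
        ((sin (a - t) * cos (a - t) / (mB θ μ L t + mB θ μ R t) +
          sin (a - t) ^ 2 / (mC θ μ L t + mC θ μ R t)) *
        (sin (b - t) * cos (b - t) / (mB θ μ L t + mB θ μ R t) +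
          sin (b - t) ^ 2 / (mC θ μ L t + mC θ μ R t)))) t := by
  have h1 := (hasDerivAt_mA θ μ L t).fun_div
    ((hasDerivAt_mA θ μ L t).fun_add (hasDerivAt_mA θ μ R t)) hA
  have h2 := (hasDerivAt_mB θ μ L t).fun_div
    ((hasDerivAt_mB θ μ L t).fun_add (hasDerivAt_mB θ μ R t)) hB
  have h3 := (hasDerivAt_mC θ μ L t).fun_div
    ((hasDerivAt_mC θ μ L t).fun_add (hasDerivAt_mC θ μ R t)) hC
  have h := ((h1.fun_mul ((hasDerivAt_cos_sq a t).fun_mul (hasDerivAt_cos_sq b t))).fun_add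
    ((h2.fun_mul ((hasDerivAt_sin_cos a t).fun_mul (hasDerivAt_sin_cos b t))).const_mul 2)).fun_add
    (h3.fun_mul ((hasDerivAt_sin_sq a t).fun_mul (hasDerivAt_sin_sq b t)))
  refine h.congr_deriv ?_
  unfold dA dB
  generalize mA θ μ L t = α at *
  generalize mA θ μ R t = Q at *
  generalize mB θ μ L t = σ at *
  generalize mB θ μ R t = τ at *
  generalize mC θ μ L t = P at *
  generalize mC θ μ R t = γ at *
  generalize cos (a - t) = ca
  generalize sin (a - t) = sa
  generalize cos (b - t) = cb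
  generalize sin (b - t) = sb
  field_simp
  ring

/-- Between two events the functional increases. -/
theorem smooth_mono [DecidableEq V] (θ μ : V → ℝ) (L K R : Finset V) (t₀ t₁ : ℝ) (h01 : t₀ ≤ t₁)
    (hLne : L.Nonempty) (hRne : R.Nonempty)
    (hμL : ∀ l ∈ L, 0 < μ l) (hμR : ∀ r ∈ R, 0 < μ r)
    (hL : ∀ l ∈ L, θ l ≤ t₀) (hR : ∀ r ∈ R, t₁ + π / 2 ≤ θ r)
    (hLR : ∀ l ∈ L, ∀ r ∈ R, θ r - θ l < π)
    (hK : ∀ k ∈ K, t₁ ≤ θ k ∧ θ k ≤ t₀ + π / 2)
    (c : V → V → ℝ)
    (hc : ∀ f : V → ℝ, (∀ k ∈ K, 0 ≤ f k) → 0 ≤ ∑ i ∈ K, ∑ j ∈ K, c i j * (f i * f j)) :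
    ∑ i ∈ K, ∑ j ∈ K, c i j * ker θ μ L R t₀ (θ i) (θ j) ≤
      ∑ i ∈ K, ∑ j ∈ K, c i j * ker θ μ L R t₁ (θ i) (θ j) := by
  rcases eq_or_lt_of_le h01 with rfl | hlt
  · exact le_rfl
  have hcosL : ∀ t ∈ Set.Icc t₀ t₁, ∀ l ∈ L, 0 < cos (θ l - t) := by
    intro t ht l hl
    obtain ⟨r, hr⟩ := hRne
    have h1 := hL l hl
    have h2 := hR r hr
    have h3 := hLR l hl r hr
    apply cos_pos_of_mem_Ioo
    constructor <;> linarith [ht.1, ht.2, pi_pos]
  have hsinR : ∀ t ∈ Set.Icc t₀ t₁, ∀ r ∈ R, 0 < sin (θ r - t) := by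
    intro t ht r hr
    obtain ⟨l, hl⟩ := hLne
    have h1 := hL l hl
    have h2 := hR r hr
    have h3 := hLR l hl r hr
    apply sin_pos_of_pos_of_lt_pi <;> linarith [ht.1, ht.2, pi_pos]
  have hsinL : ∀ t ∈ Set.Icc t₀ t₁, ∀ l ∈ L, sin (θ l - t) ≤ 0 := by
    intro t ht l hl
    obtain ⟨r, hr⟩ := hRne
    have h1 := hL l hl
    have h2 := hR r hr
    have h3 := hLR l hl r hr
    apply sin_nonpos_of_nonpos_of_neg_pi_le <;> linarith [ht.1, ht.2, pi_pos]
  have hcosR : ∀ t ∈ Set.Icc t₀ t₁, ∀ r ∈ R, cos (θ r - t) ≤ 0 := by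
    intro t ht r hr
    obtain ⟨l, hl⟩ := hLne
    have h1 := hL l hl
    have h2 := hR r hr
    have h3 := hLR l hl r hr
    apply cos_nonpos_of_pi_div_two_le_of_le <;> linarith [ht.1, ht.2, pi_pos]
  have hsinLs : ∀ t ∈ Set.Ioc t₀ t₁, ∀ l ∈ L, sin (θ l - t) < 0 := by
    intro t ht l hl
    obtain ⟨r, hr⟩ := hRne
    have h1 := hL l hl
    have h2 := hR r hr
    have h3 := hLR l hl r hr
    apply sin_neg_of_neg_of_neg_pi_lt <;> linarith [ht.1, ht.2, pi_pos]
  have hcosRs : ∀ t ∈ Set.Ico t₀ t₁, ∀ r ∈ R, cos (θ r - t) < 0 := by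
    intro t ht r hr
    obtain ⟨l, hl⟩ := hLne
    have h1 := hL l hl
    have h2 := hR r hr
    have h3 := hLR l hl r hr
    apply cos_neg_of_pi_div_two_lt_of_lt <;> linarith [ht.1, ht.2, pi_pos]
  have hALpos : ∀ t ∈ Set.Icc t₀ t₁, 0 < mA θ μ L t + mA θ μ R t := by
    intro t ht
    apply add_pos_of_pos_of_nonneg
    · exact Finset.sum_pos (fun l hl => mul_pos (hμL l hl) (pow_pos (hcosL t ht l hl) 2)) hLne
    · exact Finset.sum_nonneg fun r hr => mul_nonneg (hμR r hr).le (sq_nonneg _)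
  have hCpos : ∀ t ∈ Set.Icc t₀ t₁, 0 < mC θ μ L t + mC θ μ R t := by
    intro t ht
    apply add_pos_of_nonneg_of_pos
    · exact Finset.sum_nonneg fun l hl => mul_nonneg (hμL l hl).le (sq_nonneg _)
    · exact Finset.sum_pos (fun r hr => mul_pos (hμR r hr) (pow_pos (hsinR t ht r hr) 2)) hRne
  have hBpos : ∀ t ∈ Set.Icc t₀ t₁, 0 < mB θ μ L t + mB θ μ R t := by
    intro t ht
    rcases eq_or_lt_of_le ht.1 with e | hlt'
    · have ht' : t ∈ Set.Ico t₀ t₁ := ⟨ht.1, by rw [← e]; exact hlt⟩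
      apply add_pos_of_nonneg_of_pos
      · refine Finset.sum_nonneg fun l hl => mul_nonneg (hμL l hl).le ?_
        have := hsinL t ht l hl
        have := hcosL t ht l hl
        nlinarith
      · refine Finset.sum_pos (fun r hr => mul_pos (hμR r hr) ?_) hRne
        have := hsinR t ht r hr
        have := hcosRs t ht' r hr
        nlinarith
    · have ht' : t ∈ Set.Ioc t₀ t₁ := ⟨hlt', ht.2⟩
      apply add_pos_of_pos_of_nonneg
      · refine Finset.sum_pos (fun l hl => mul_pos (hμL l hl) ?_) hLne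
        have := hsinLs t ht' l hl
        have := hcosL t ht l hl
        nlinarith
      · refine Finset.sum_nonneg fun r hr => mul_nonneg (hμR r hr).le ?_
        have := hsinR t ht r hr
        have := hcosR t ht r hr
        nlinarith
  have hdA : ∀ t ∈ Set.Icc t₀ t₁, 0 ≤ dA θ μ L R t := by
    intro t ht
    rw [dA_eq]
    refine Finset.sum_nonneg fun l hl => Finset.sum_nonneg fun r hr => ?_
    have h1 := hcosL t ht l hl
    have h2 := hcosR t ht r hr
    have h3 : 0 ≤ sin (θ r - θ l) := by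
      apply sin_nonneg_of_nonneg_of_le_pi
      · linarith [hL l hl, hR r hr, pi_pos]
      · exact (hLR l hl r hr).le
    have h4 := hμL l hl
    have h5 := hμR r hr
    have h6 : 0 ≤ -cos (θ r - t) := by linarith
    positivity
  have hdB : ∀ t ∈ Set.Icc t₀ t₁, 0 ≤ dB θ μ L R t := by
    intro t ht
    rw [dB_eq]
    refine Finset.sum_nonneg fun l hl => Finset.sum_nonneg fun r hr => ?_
    have h1 := hsinR t ht r hr
    have h2 := hsinL t ht l hl
    have h3 : 0 ≤ sin (θ r - θ l) := by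
      apply sin_nonneg_of_nonneg_of_le_pi
      · linarith [hL l hl, hR r hr, pi_pos]
      · exact (hLR l hl r hr).le
    have h4 := hμL l hl
    have h5 := hμR r hr
    have h6 : 0 ≤ -sin (θ l - t) := by linarith
    positivity
  -- the derivative of the functional
  let F : ℝ → ℝ := fun t => ∑ i ∈ K, ∑ j ∈ K, c i j * ker θ μ L R t (θ i) (θ j)
  let u : ℝ → V → ℝ := fun t i => cos (θ i - t) ^ 2 / (mA θ μ L t + mA θ μ R t) +
          sin (θ i - t) * cos (θ i - t) / (mB θ μ L t + mB θ μ R t)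
  let w : ℝ → V → ℝ := fun t i => sin (θ i - t) * cos (θ i - t) / (mB θ μ L t + mB θ μ R t) +
          sin (θ i - t) ^ 2 / (mC θ μ L t + mC θ μ R t)
  have hF : ∀ t ∈ Set.Icc t₀ t₁, HasDerivAt F
      (2 * dA θ μ L R t * (∑ i ∈ K, ∑ j ∈ K, c i j * (u t i * u t j)) +
        2 * dB θ μ L R t * (∑ i ∈ K, ∑ j ∈ K, c i j * (w t i * w t j))) t := by
    intro t ht
    have h := HasDerivAt.fun_sum (u := K) (fun i _ => HasDerivAt.fun_sum (u := K)
      (fun j _ => (hasDerivAt_ker θ μ L R t (θ i) (θ j) (hALpos t ht).ne' (hBpos t ht).ne'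
        (hCpos t ht).ne').const_mul (c i j)))
    refine h.congr_deriv ?_
    rw [Finset.mul_sum, Finset.mul_sum, ← Finset.sum_add_distrib]
    refine Finset.sum_congr rfl fun i _ => ?_
    rw [Finset.mul_sum, Finset.mul_sum, ← Finset.sum_add_distrib]
    refine Finset.sum_congr rfl fun j _ => ?_
    simp only [u, w]
    ring
  have hwin : ∀ t ∈ Set.Icc t₀ t₁, ∀ k ∈ K, 0 ≤ sin (θ k - t) ∧ 0 ≤ cos (θ k - t) := by
    intro t ht k hk
    have := hK k hk
    constructor
    · apply sin_nonneg_of_nonneg_of_le_pi <;> linarith [ht.1, ht.2, pi_pos]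
    · apply cos_nonneg_of_mem_Icc
      constructor <;> linarith [ht.1, ht.2, pi_pos]
  have hmono : MonotoneOn F (Set.Icc t₀ t₁) := by
    apply monotoneOn_of_deriv_nonneg (convex_Icc t₀ t₁)
    · exact fun t ht => (hF t ht).continuousAt.continuousWithinAt
    · intro t ht
      exact (hF t (interior_subset ht)).differentiableAt.differentiableWithinAt
    · intro t ht
      have ht' := interior_subset ht
      rw [(hF t ht').deriv]
      have h1 := hdA t ht'
      have h2 := hdB t ht'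
      have hu := hc (u t) (fun k hk => by
        have h3 := (hwin t ht' k hk).1
        have h4 := (hwin t ht' k hk).2
        have h5 := hALpos t ht'
        have h6 := hBpos t ht'
        simp only [u]
        positivity)
      have hw := hc (w t) (fun k hk => by
        have h3 := (hwin t ht' k hk).1
        have h4 := (hwin t ht' k hk).2
        have h5 := hCpos t ht'
        have h6 := hBpos t ht'
        simp only [w]
        positivity)
      positivity
  exact hmono (Set.left_mem_Icc.2 h01) (Set.right_mem_Icc.2 h01) h01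

end Pool.Agent.Work.MP_f90287_co
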